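import Mathlib

open MeasureTheory Set ENNReal

namespace Pool.Agent.Helper68.LC

noncomputable section

/-- The kernel `log (1 / |x - y|)` as an extended real number; it is `+∞` when `x = y`. -/
def logKernel {n : ℕ} (x y : EuclideanSpace ℝ (Fin n)) : EReal := ENNReal.log (edist x y)⁻¹

/-- The logarithmic energy `I(μ) = ∬ log (1 / |x - y|) dμ(x) dμ(y)` of a measure, as the integral of
the positive part minus the integral of the negative part of the kernel. For a probability measure
living on a bounded set the second integral is finite, so this is a well defined element of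
`(-∞, +∞]`. -/
def logEnergy {n : ℕ} (μ : Measure (EuclideanSpace ℝ (Fin n))) : EReal :=
  ((∫⁻ p, (logKernel p.1 p.2).toENNReal ∂(μ.prod μ) : ℝ≥0∞) : EReal)
    - ((∫⁻ p, (-logKernel p.1 p.2).toENNReal ∂(μ.prod μ) : ℝ≥0∞) : EReal)

/-- The logarithmic capacity `exp (- inf I(μ))`, the infimum being over all Borel probability
measures `μ` carried by `K`. -/
def logCap {n : ℕ} (K : Set (EuclideanSpace ℝ (Fin n))) : ℝ≥0∞ :=
  EReal.exp (-(⨅ (μ : ProbabilityMeasure (EuclideanSpace ℝ (Fin n)))
    (_ : (μ : Measure (EuclideanSpace ℝ (Fin n))) Kᶜ = 0),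
      logEnergy (μ : Measure (EuclideanSpace ℝ (Fin n)))))

end

end Pool.Agent.Helper68.LC
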