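import Mathlib

open MeasureTheory Set ENNReal

namespace Pool.Agent.Helper68.LC

noncomputable section

set_option linter.unusedSectionVars false

/-- Frullani type integral. -/
def Lam (s : ℝ) : ℝ≥0∞ :=
  ∫⁻ t in Ioi (0 : ℝ), ENNReal.ofReal ((Real.exp (-(t * s)) - Real.exp (-t)) / t)

theorem lam_eq {s : ℝ} (h0 : 0 < s) (h1 : s ≤ 1) : Lam s = ENNReal.ofReal (-Real.log s) := by
  have step : ∀ t ∈ Ioi (0 : ℝ), ENNReal.ofReal ((Real.exp (-(t * s)) - Real.exp (-t)) / t)
      = ∫⁻ u in Ioc s 1, ENNReal.ofReal (Real.exp (-(t * u))) := by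
    intro t ht
    have ht' : (0 : ℝ) < t := ht
    rw [← ofReal_integral_eq_lintegral_ofReal]
    · rw [← intervalIntegral.integral_of_le h1]
      congr 1
      have : ∀ u ∈ uIcc s 1, HasDerivAt (fun u => -(Real.exp (-(t * u)) / t))
          (Real.exp (-(t * u))) u := by
        intro u _
        have h2 : HasDerivAt (fun u => Real.exp (-(t * u))) (Real.exp (-(t * u)) * (-(t * 1))) u :=
          ((hasDerivAt_id u).const_mul t).neg.exp
        have h3 := (h2.div_const t).neg
        have h4 : -(Real.exp (-(t * u)) * (-(t * 1)) / t) = Real.exp (-(t * u)) := by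
          field_simp
        rwa [h4] at h3
      rw [intervalIntegral.integral_eq_sub_of_hasDerivAt this]
      · field_simp
        ring_nf
      · apply Continuous.intervalIntegrable
        fun_prop
    · apply Continuous.integrableOn_Ioc
      fun_prop
    · filter_upwards with u using (Real.exp_pos _).le
  unfold Lam
  rw [setLIntegral_congr_fun measurableSet_Ioi step]
  rw [lintegral_lintegral_swap]
  · have inner : ∀ u ∈ Ioc s 1, ∫⁻ t in Ioi (0 : ℝ), ENNReal.ofReal (Real.exp (-(t * u)))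
        = ENNReal.ofReal u⁻¹ := by
      intro u hu
      have hu0 : 0 < u := h0.trans hu.1
      have e : (fun t : ℝ => Real.exp (-(t * u))) = fun t => Real.exp (-u * t) := by
        ext t; ring_nf
      rw [← ofReal_integral_eq_lintegral_ofReal]
      · rw [e, integral_exp_mul_Ioi (by linarith)]
        simp
      · rw [e]
        exact integrableOn_exp_mul_Ioi (by linarith) 0
      · filter_upwards with u using (Real.exp_pos _).le
    rw [setLIntegral_congr_fun measurableSet_Ioc inner]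
    rw [← ofReal_integral_eq_lintegral_ofReal]
    · rw [← intervalIntegral.integral_of_le h1, integral_inv_of_pos h0 one_pos]
      rw [one_div, Real.log_inv]
    · have : IntervalIntegrable (fun u : ℝ => u⁻¹) volume s 1 := by
        apply intervalIntegral.intervalIntegrable_inv
        · intro x hx
          rw [uIcc_of_le h1] at hx
          exact (h0.trans_le hx.1).ne'
        · exact continuousOn_id
      exact (intervalIntegrable_iff_integrableOn_Ioc_of_le h1).1 this
    · filter_upwards [ae_restrict_mem measurableSet_Ioc] with u hu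
      exact inv_nonneg.2 (h0.trans hu.1).le
  · apply Measurable.aemeasurable
    apply ENNReal.measurable_ofReal.comp
    apply Real.measurable_exp.comp
    fun_prop

/-! Gaussian kernels are positive definite. -/

section gauss

variable {V : Type*} [NormedAddCommGroup V] [InnerProductSpace ℝ V] [FiniteDimensional ℝ V]
  [MeasurableSpace V] [BorelSpace V]

def G (a : ℝ) (x y : V) : ℝ≥0∞ := ENNReal.ofReal (Real.exp (-(a * ‖x - y‖ ^ 2)))

theorem measurable_G (a : ℝ) : Measurable (fun p : V × V => G a p.1 p.2) := by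
  unfold G
  apply ENNReal.measurable_ofReal.comp
  apply Real.measurable_exp.comp
  fun_prop

theorem measurable_G_left (a : ℝ) (y : V) : Measurable (fun x : V => G a x y) := by
  unfold G
  apply ENNReal.measurable_ofReal.comp
  apply Real.measurable_exp.comp
  fun_prop

theorem measurable_G_right (a : ℝ) (x : V) : Measurable (fun y : V => G a x y) := by
  unfold G
  apply ENNReal.measurable_ofReal.comp
  apply Real.measurable_exp.comp
  fun_prop

theorem G_lt_top (a : ℝ) (x y : V) : G a x y < ∞ := ENNReal.ofReal_lt_top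

theorem G_le_one {a : ℝ} (ha : 0 ≤ a) (x y : V) : G a x y ≤ 1 := by
  unfold G
  rw [← ENNReal.ofReal_one]
  apply ENNReal.ofReal_le_ofReal
  rw [← Real.exp_zero]
  apply Real.exp_le_exp.2
  have : 0 ≤ a * ‖x - y‖ ^ 2 := by positivity
  linarith

/-- normalising constant -/
def W (V : Type*) [NormedAddCommGroup V] [InnerProductSpace ℝ V] [FiniteDimensional ℝ V]
  [MeasurableSpace V] [BorelSpace V] (a : ℝ) : ℝ≥0∞ :=
    ∫⁻ z : V, ENNReal.ofReal (Real.exp (-(4 * a * ‖z‖ ^ 2)))

theorem W_ne_top {a : ℝ} (ha : 0 < a) : W V a ≠ ∞ := by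
  unfold W
  have h : Integrable (fun z : V => Real.exp (-(4 * a * ‖z‖ ^ 2))) := by
    have := GaussianFourier.integrable_cexp_neg_mul_sq_norm_add (V := V) (b := ((4 * a : ℝ) : ℂ))
      (by rw [Complex.ofReal_re]; linarith) 0 0
    have h2 := this.norm
    refine h2.congr ?_
    filter_upwards with z
    have e : (-((4 * a : ℝ) : ℂ) * (‖z‖ : ℂ) ^ 2 + 0 * ((inner ℝ (0 : V) z : ℝ) : ℂ))
        = ((-(4 * a * ‖z‖ ^ 2) : ℝ) : ℂ) := by
      push_cast; ring
    simp only [Complex.norm_exp]
    rw [e, Complex.ofReal_re]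
  exact h.lintegral_lt_top.ne

theorem W_ne_zero {a : ℝ} : W V a ≠ 0 := by
  unfold W
  rw [← pos_iff_ne_zero, lintegral_pos_iff_support]
  · have : Function.support (fun z : V => ENNReal.ofReal (Real.exp (-(4 * a * ‖z‖ ^ 2)))) = univ := by
      ext z; simp [Real.exp_pos]
    rw [this]
    exact isOpen_univ.measure_pos _ ⟨0, trivial⟩
  · apply ENNReal.measurable_ofReal.comp
    apply Real.measurable_exp.comp
    fun_prop

theorem G_conv {a : ℝ} (x y : V) :
    W V a * G a x y = ∫⁻ z, G (2 * a) x z * G (2 * a) y z := by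
  have h : ∀ z : V, G (2 * a) x z * G (2 * a) y z
      = G a x y * ENNReal.ofReal (Real.exp (-(4 * a * ‖z - (2 : ℝ)⁻¹ • (x + y)‖ ^ 2))) := by
    intro z
    unfold G
    rw [← ENNReal.ofReal_mul (Real.exp_pos _).le, ← ENNReal.ofReal_mul (Real.exp_pos _).le,
      ← Real.exp_add, ← Real.exp_add]
    congr 2
    have := parallelogram_law_with_norm ℝ (x - z) (y - z)
    have h1 : x - z + (y - z) = - (2 : ℝ) • (z - (2 : ℝ)⁻¹ • (x + y)) := by
      module
    have h2 : x - z - (y - z) = x - y := by abel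
    have h3 : ‖(-2 : ℝ)‖ = 2 := by norm_num
    rw [h1, h2, norm_smul, h3] at this
    linear_combination a * this
  simp_rw [h]
  rw [lintegral_const_mul, mul_comm]
  · congr 1
    unfold W
    exact (lintegral_sub_right_eq_self (fun z : V => ENNReal.ofReal (Real.exp (-(4 * a * ‖z‖ ^ 2)))) _).symm
  · apply ENNReal.measurable_ofReal.comp
    apply Real.measurable_exp.comp
    fun_prop

/-- mutual Gaussian energy -/
def GE (a : ℝ) (μ ν : Measure V) : ℝ≥0∞ := ∫⁻ x, ∫⁻ y, G a x y ∂ν ∂μ

theorem W_mul_GE {a : ℝ} (μ ν : Measure V) [IsFiniteMeasure μ] [IsFiniteMeasure ν] :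
    W V a * GE a μ ν = ∫⁻ z, (∫⁻ x, G (2 * a) x z ∂μ) * (∫⁻ y, G (2 * a) y z ∂ν) := by
  have mg : ∀ (z : V), Measurable (fun x : V => G (2 * a) x z) := measurable_G_left (2 * a)
  have m2 : Measurable (fun z : V => ∫⁻ y, G (2 * a) y z ∂ν) :=
    ((measurable_G (V := V) (2 * a)).comp measurable_swap).lintegral_prod_right'
  unfold GE
  rw [← lintegral_const_mul _ ((measurable_G a).lintegral_prod_right')]
  simp_rw [← lintegral_const_mul _ (measurable_G_right a _), G_conv]
  have s1 : ∀ x : V, ∫⁻ y, (∫⁻ z, G (2 * a) x z * G (2 * a) y z) ∂ν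
      = ∫⁻ z, G (2 * a) x z * ∫⁻ y, G (2 * a) y z ∂ν := by
    intro x
    rw [lintegral_lintegral_swap]
    · refine lintegral_congr fun z => ?_
      rw [lintegral_const_mul _ (mg z)]
    · apply Measurable.aemeasurable
      exact ((measurable_G_right (2 * a) x).comp measurable_snd).mul (measurable_G (2 * a))
  simp_rw [s1]
  rw [lintegral_lintegral_swap]
  · refine lintegral_congr fun z => ?_
    rw [lintegral_mul_const _ (mg z)]
  · apply Measurable.aemeasurable
    exact (measurable_G (2 * a)).mul (m2.comp measurable_snd)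

theorem GE_le_one {a : ℝ} (ha : 0 ≤ a) (μ ν : Measure V) [IsProbabilityMeasure μ]
    [IsProbabilityMeasure ν] : GE a μ ν ≤ 1 := by
  unfold GE
  calc ∫⁻ x, ∫⁻ y, G a x y ∂ν ∂μ ≤ ∫⁻ _, ∫⁻ _, 1 ∂ν ∂μ :=
        lintegral_mono fun x => lintegral_mono fun y => G_le_one ha x y
    _ = 1 := by simp

theorem two_GE_le {a : ℝ} (ha : 0 < a) (μ ν : Measure V) [IsProbabilityMeasure μ]
    [IsProbabilityMeasure ν] : 2 * GE a μ ν ≤ GE a μ μ + GE a ν ν := by
  have key : W V a * (2 * GE a μ ν) ≤ W V a * (GE a μ μ + GE a ν ν) := by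
    rw [mul_add, W_mul_GE, W_mul_GE, mul_left_comm, W_mul_GE, ← lintegral_add_left,
      ← lintegral_const_mul']
    · apply lintegral_mono
      intro z
      have h1 : ∀ ρ : Measure V, IsProbabilityMeasure ρ → ∫⁻ x, G (2 * a) x z ∂ρ ≠ ∞ := by
        intro ρ hρ
        have : ∫⁻ x, G (2 * a) x z ∂ρ ≤ 1 := by
          calc ∫⁻ x, G (2 * a) x z ∂ρ ≤ ∫⁻ _, 1 ∂ρ :=
                lintegral_mono fun x => G_le_one (by linarith) x z
            _ = 1 := by simp
        exact (this.trans_lt ENNReal.one_lt_top).ne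
      have hμ := h1 μ inferInstance
      have hν := h1 ν inferInstance
      beta_reduce
      generalize (∫⁻ x, G (2 * a) x z ∂μ) = p at hμ ⊢
      generalize (∫⁻ x, G (2 * a) x z ∂ν) = q at hν ⊢
      lift p to NNReal using hμ
      lift q to NNReal using hν
      norm_cast
      rw [← NNReal.coe_le_coe]
      push_cast
      nlinarith [sq_nonneg ((p : ℝ) - q)]
    · norm_num
    · have m2 : ∀ ρ : Measure V, IsProbabilityMeasure ρ →
          Measurable (fun z : V => ∫⁻ y, G (2 * a) y z ∂ρ) := fun ρ _ =>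
        ((measurable_G (V := V) (2 * a)).comp measurable_swap).lintegral_prod_right'
      exact (m2 μ inferInstance).mul (m2 μ inferInstance)
  exact (ENNReal.mul_le_mul_iff_right W_ne_zero (W_ne_top ha)).1 key

/-- the integrand of the Frullani kernel -/
def K (t : ℝ) (x y : V) : ℝ≥0∞ :=
  ENNReal.ofReal ((Real.exp (-(t * (‖x - y‖ ^ 2 / 4))) - Real.exp (-t)) / t)

theorem measurable_K : Measurable (fun q : ℝ × V × V => K q.1 q.2.1 q.2.2) := by
  unfold K
  apply ENNReal.measurable_ofReal.comp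
  apply Measurable.div _ measurable_fst
  apply Measurable.sub
  · apply Real.measurable_exp.comp
    fun_prop
  · apply Real.measurable_exp.comp
    fun_prop

theorem measurable_K_comp {α : Type*} [MeasurableSpace α] {f : α → ℝ} {g h : α → V}
    (hf : Measurable f) (hg : Measurable g) (hh : Measurable h) :
    Measurable (fun a => K (f a) (g a) (h a)) :=
  measurable_K.comp (hf.prodMk (hg.prodMk hh))

/-- mutual energy of the Frullani integrand -/
def KE (t : ℝ) (μ ν : Measure V) : ℝ≥0∞ := ∫⁻ x, ∫⁻ y, K t x y ∂ν ∂μ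

/-- mutual energy for the kernel `Lam (|x-y|^2/4)` -/
def LE (μ ν : Measure V) : ℝ≥0∞ := ∫⁻ x, ∫⁻ y, Lam (‖x - y‖ ^ 2 / 4) ∂ν ∂μ

theorem measurable_lam : Measurable Lam := by
  unfold Lam
  apply Measurable.lintegral_prod_right' (f := fun p : ℝ × ℝ =>
    ENNReal.ofReal ((Real.exp (-(p.2 * p.1)) - Real.exp (-p.2)) / p.2))
  apply ENNReal.measurable_ofReal.comp
  apply Measurable.div _ measurable_snd
  apply Measurable.sub
  · apply Real.measurable_exp.comp
    fun_prop
  · apply Real.measurable_exp.comp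
    fun_prop

theorem LE_eq (μ ν : Measure V) [IsFiniteMeasure μ] [IsFiniteMeasure ν] :
    LE μ ν = ∫⁻ t in Ioi (0 : ℝ), KE t μ ν := by
  unfold LE KE
  have s1 : ∀ x : V, ∫⁻ y, Lam (‖x - y‖ ^ 2 / 4) ∂ν = ∫⁻ t in Ioi (0 : ℝ), (∫⁻ y, K t x y ∂ν) := by
    intro x
    unfold Lam
    rw [lintegral_lintegral_swap]
    · rfl
    · apply Measurable.aemeasurable
      exact measurable_K_comp measurable_snd measurable_const measurable_fst
  simp_rw [s1]
  rw [lintegral_lintegral_swap]
  apply Measurable.aemeasurable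
  change Measurable (fun p : V × ℝ => ∫⁻ y, K p.2 p.1 y ∂ν)
  apply Measurable.lintegral_prod_right' (f := fun p : (V × ℝ) × V => K p.1.2 p.1.1 p.2)
  exact measurable_K_comp (measurable_snd.comp measurable_fst)
    (measurable_fst.comp measurable_fst) measurable_snd

theorem norm_sub_sq_le {x y : V} (hx : ‖x‖ ≤ 1) (hy : ‖y‖ ≤ 1) : ‖x - y‖ ^ 2 / 4 ≤ 1 := by
  have h := norm_sub_le x y
  have h0 := norm_nonneg (x - y)
  nlinarith

theorem GE_eq {t : ℝ} (ht : 0 < t) (μ ν : Measure V) [IsProbabilityMeasure μ]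
    [IsProbabilityMeasure ν] (hμ : ∀ᵐ x ∂μ, ‖x‖ ≤ 1) (hν : ∀ᵐ x ∂ν, ‖x‖ ≤ 1) :
    GE (t / 4) μ ν = ENNReal.ofReal t * KE t μ ν + ENNReal.ofReal (Real.exp (-t)) := by
  unfold GE KE
  have mK : ∀ x : V, Measurable (fun y => K t x y) := fun x =>
    measurable_K_comp measurable_const measurable_const measurable_id
  have mK2 : Measurable (fun x : V => ∫⁻ y, K t x y ∂ν) := by
    apply Measurable.lintegral_prod_right' (f := fun p : V × V => K t p.1 p.2)
    exact measurable_K_comp measurable_const measurable_fst measurable_snd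
  rw [← lintegral_const_mul _ mK2]
  have h1 : ENNReal.ofReal (Real.exp (-t)) = ∫⁻ _ : V, ENNReal.ofReal (Real.exp (-t)) ∂μ := by simp
  rw [h1, ← lintegral_add_right _ measurable_const]
  apply lintegral_congr_ae
  filter_upwards [hμ] with x hx
  have h2 : ENNReal.ofReal (Real.exp (-t)) = ∫⁻ _ : V, ENNReal.ofReal (Real.exp (-t)) ∂ν := by simp
  rw [← lintegral_const_mul _ (mK x), h2, ← lintegral_add_right _ measurable_const]
  apply lintegral_congr_ae
  filter_upwards [hν] with y hy
  unfold G K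
  have hs := norm_sub_sq_le hx hy
  have hs0 : 0 ≤ ‖x - y‖ ^ 2 / 4 := by positivity
  have h3 : Real.exp (-t) ≤ Real.exp (-(t * (‖x - y‖ ^ 2 / 4))) := by
    apply Real.exp_le_exp.2
    nlinarith
  rw [← ENNReal.ofReal_mul ht.le, ← ENNReal.ofReal_add]
  · congr 1
    have e1 : t * ((Real.exp (-(t * (‖x - y‖ ^ 2 / 4))) - Real.exp (-t)) / t)
      = Real.exp (-(t * (‖x - y‖ ^ 2 / 4))) - Real.exp (-t) := by field_simp
    rw [e1, sub_add_cancel]
    congr 1
    ring
  · apply mul_nonneg ht.le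
    apply div_nonneg _ ht.le
    linarith
  · exact (Real.exp_pos _).le

theorem two_KE_le {t : ℝ} (ht : 0 < t) (μ ν : Measure V) [IsProbabilityMeasure μ]
    [IsProbabilityMeasure ν] (hμ : ∀ᵐ x ∂μ, ‖x‖ ≤ 1) (hν : ∀ᵐ x ∂ν, ‖x‖ ≤ 1) :
    2 * KE t μ ν ≤ KE t μ μ + KE t ν ν := by
  have h := two_GE_le (show 0 < t / 4 by linarith) μ ν
  rw [GE_eq ht μ ν hμ hν, GE_eq ht μ μ hμ hμ, GE_eq ht ν ν hν hν] at h
  have he : ENNReal.ofReal (Real.exp (-t)) ≠ ∞ := ENNReal.ofReal_ne_top
  have ht0 : ENNReal.ofReal t ≠ 0 := by simpa using ht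
  have ht1 : ENNReal.ofReal t ≠ ∞ := ENNReal.ofReal_ne_top
  generalize ENNReal.ofReal (Real.exp (-t)) = e at h he
  generalize ENNReal.ofReal t = τ at h ht0 ht1
  have h2 : τ * (2 * KE t μ ν) + 2 * e ≤ τ * (KE t μ μ + KE t ν ν) + 2 * e := by
    calc τ * (2 * KE t μ ν) + 2 * e = 2 * (τ * KE t μ ν + e) := by ring
      _ ≤ _ := h
      _ = _ := by ring
  have h3 : 2 * e ≠ ∞ := ENNReal.mul_ne_top (by norm_num) he
  exact (ENNReal.mul_le_mul_iff_right ht0 ht1).1 ((ENNReal.add_le_add_iff_right h3).1 h2)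

theorem two_LE_le (μ ν : Measure V) [IsProbabilityMeasure μ]
    [IsProbabilityMeasure ν] (hμ : ∀ᵐ x ∂μ, ‖x‖ ≤ 1) (hν : ∀ᵐ x ∂ν, ‖x‖ ≤ 1) :
    2 * LE μ ν ≤ LE μ μ + LE ν ν := by
  have mKE : ∀ ρ τ : Measure V, IsProbabilityMeasure ρ → IsProbabilityMeasure τ →
      Measurable (fun t : ℝ => KE t ρ τ) := by
    intro ρ τ _ _
    unfold KE
    apply Measurable.lintegral_prod_right' (f := fun p : ℝ × V => ∫⁻ y, K p.1 p.2 y ∂τ)
    apply Measurable.lintegral_prod_right' (f := fun p : (ℝ × V) × V => K p.1.1 p.1.2 p.2)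
    exact measurable_K_comp (measurable_fst.comp measurable_fst)
      (measurable_snd.comp measurable_fst) measurable_snd
  rw [LE_eq, LE_eq, LE_eq, ← lintegral_const_mul _ (mKE μ ν inferInstance inferInstance),
    ← lintegral_add_left (mKE μ μ inferInstance inferInstance)]
  apply setLIntegral_mono' measurableSet_Ioi
  intro t ht
  exact two_KE_le ht μ ν hμ hν

end gauss

end

end Pool.Agent.Helper68.LC
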