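import Mathlib
import Pool.Agent.Helper68.PD

open MeasureTheory Set ENNReal Metric

namespace Pool.Agent.Helper68.LC

noncomputable section

set_option linter.unusedSectionVars false

section radial

variable {F : Type*} [NormedAddCommGroup F] [InnerProductSpace ℝ F] [FiniteDimensional ℝ F]
  [MeasurableSpace F] [BorelSpace F]

theorem lintegral_norm_radial [Nontrivial F] {f : ℝ → ℝ≥0∞} (hf : Measurable f) :
    ∫⁻ v : F, f ‖v‖ = (volume : Measure F).toSphere univ *
      ∫⁻ ρ in Ioi (0 : ℝ), ENNReal.ofReal (ρ ^ (Module.finrank ℝ F - 1)) * f ρ := by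
  have h0 : ∫⁻ v : F, f ‖v‖ = ∫⁻ v in ({0}ᶜ : Set F), f ‖v‖ := by
    rw [restrict_compl_singleton]
  have h1 : ∫⁻ v in ({0}ᶜ : Set F), f ‖v‖
      = ∫⁻ v : ({0}ᶜ : Set F), f ‖(v : F)‖ ∂((volume : Measure F).comap (↑)) := by
    rw [lintegral_subtype_comap (measurableSet_singleton _).compl (fun v => f ‖v‖)]
  have h2 := (volume : Measure F).measurePreserving_homeomorphUnitSphereProd.lintegral_comp_emb
    (Homeomorph.measurableEmbedding _) (fun p => f p.2)
  have h3 : ∀ v : ({0}ᶜ : Set F), ((homeomorphUnitSphereProd F v).2 : ℝ) = ‖(v : F)‖ := by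
    intro v; simp
  simp only [h3] at h2
  rw [h0, h1, h2]
  have mf : Measurable (fun r : Ioi (0 : ℝ) => f r) := hf.comp measurable_subtype_coe
  rw [lintegral_prod (fun p : sphere (0 : F) 1 × Ioi (0 : ℝ) => f p.2)
    (mf.comp measurable_snd).aemeasurable]
  simp only [lintegral_const]
  rw [mul_comm]
  congr 1
  rw [Measure.volumeIoiPow, lintegral_withDensity_eq_lintegral_mul]
  · simp only [Pi.mul_apply]
    rw [lintegral_subtype_comap measurableSet_Ioi
      (fun r : ℝ => ENNReal.ofReal (r ^ (Module.finrank ℝ F - 1)) * f r)]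
  · exact (measurable_subtype_coe.pow_const _).ennreal_ofReal
  · exact mf

end radial

section iso

variable {V : Type*} [NormedAddCommGroup V] [InnerProductSpace ℝ V] [FiniteDimensional ℝ V]
  [MeasurableSpace V] [BorelSpace V]

abbrev FF (m : ℕ) := EuclideanSpace ℝ (Fin m)

theorem exists_iso {m : ℕ} (hm : Module.finrank ℝ V = m + 1) (x : V) :
    ∃ Ψ : V ≃ₗᵢ[ℝ] WithLp 2 (ℝ × FF m), Ψ x = WithLp.toLp 2 (‖x‖, 0) := by
  have h2 : Module.finrank ℝ (WithLp 2 (ℝ × FF m)) = m + 1 := by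
    rw [LinearEquiv.finrank_eq (WithLp.linearEquiv 2 ℝ (ℝ × FF m))]
    simp [add_comm]
  let e : Fin (Module.finrank ℝ V) ≃ Fin (Module.finrank ℝ (WithLp 2 (ℝ × FF m))) :=
    finCongr (by rw [hm, h2])
  let Ψ₀ : V ≃ₗᵢ[ℝ] WithLp 2 (ℝ × FF m) :=
    (stdOrthonormalBasis ℝ V).equiv (stdOrthonormalBasis ℝ (WithLp 2 (ℝ × FF m))) e
  have hn : ‖Ψ₀ x‖ = ‖(WithLp.toLp 2 (‖x‖, 0) : WithLp 2 (ℝ × FF m))‖ := by
    rw [LinearIsometryEquiv.norm_map]
    simp
  refine ⟨Ψ₀.trans (Submodule.reflection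
    (Submodule.span ℝ {Ψ₀ x - (WithLp.toLp 2 (‖x‖, 0) : WithLp 2 (ℝ × FF m))})ᗮ), ?_⟩
  rw [LinearIsometryEquiv.trans_apply]
  exact Submodule.reflection_sub hn

theorem lintegral_inner_norm {m : ℕ} (hm : Module.finrank ℝ V = m + 1) (x : V)
    {H : ℝ → ℝ → ℝ≥0∞} (hH : Measurable (fun p : ℝ × ℝ => H p.1 p.2)) :
    ∫⁻ z : V, H (inner ℝ x z) ‖z‖ =
      ∫⁻ a : ℝ, ∫⁻ v : FF m, H (‖x‖ * a) (√(a ^ 2 + ‖v‖ ^ 2)) := by
  obtain ⟨Ψ, hΨ⟩ := exists_iso hm x
  have h1 : ∫⁻ z : V, H (inner ℝ x z) ‖z‖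
      = ∫⁻ w : WithLp 2 (ℝ × FF m), H (inner ℝ (Ψ x) w) ‖w‖ := by
    rw [← (LinearIsometryEquiv.measurePreserving Ψ).lintegral_comp_emb
      Ψ.toHomeomorph.measurableEmbedding (fun w => H (inner ℝ (Ψ x) w) ‖w‖)]
    refine lintegral_congr fun z => ?_
    rw [LinearIsometryEquiv.inner_map_map, LinearIsometryEquiv.norm_map]
  have h2 : ∫⁻ w : WithLp 2 (ℝ × FF m), H (inner ℝ (Ψ x) w) ‖w‖
      = ∫⁻ q : ℝ × FF m, H (‖x‖ * q.1) (√(q.1 ^ 2 + ‖q.2‖ ^ 2)) := by
    rw [← (WithLp.volume_preserving_symm_measurableEquiv_toLp_prod ℝ (FF m)).symm.lintegral_comp_emb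
      (MeasurableEquiv.measurableEmbedding _)]
    refine lintegral_congr fun q => ?_
    rw [hΨ]
    congr 1
    · simp
      ring
    · simp [WithLp.prod_norm_eq_of_L2]
  rw [h1, h2, Measure.volume_eq_prod, lintegral_prod]
  apply Measurable.aemeasurable
  have hg : Measurable (fun q : ℝ × FF m => (‖x‖ * q.1, √(q.1 ^ 2 + ‖q.2‖ ^ 2))) := by
    apply Measurable.prodMk
    · fun_prop
    · apply Real.continuous_sqrt.measurable.comp
      fun_prop
  exact hH.comp hg

theorem lintegral_halfplane {g : ℝ → ℝ → ℝ≥0∞} (hg : Measurable (fun p : ℝ × ℝ => g p.1 p.2)) :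
    ∫⁻ a : ℝ, ∫⁻ ρ in Ioi (0 : ℝ), g a ρ =
      ∫⁻ R in Ioi (0 : ℝ), ∫⁻ θ in Ioo (0 : ℝ) Real.pi,
        ENNReal.ofReal R * g (R * Real.cos θ) (R * Real.sin θ) := by
  have mI : MeasurableSet {p : ℝ × ℝ | 0 < p.2} := measurableSet_lt measurable_const measurable_snd
  have e1 : ∫⁻ a : ℝ, ∫⁻ ρ in Ioi (0 : ℝ), g a ρ
      = ∫⁻ p : ℝ × ℝ, {p : ℝ × ℝ | 0 < p.2}.indicator (fun p => g p.1 p.2) p := by
    rw [Measure.volume_eq_prod, lintegral_prod _ (hg.indicator mI).aemeasurable]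
    refine lintegral_congr fun a => ?_
    rw [← lintegral_indicator measurableSet_Ioi]
    rfl
  rw [e1, ← lintegral_comp_polarCoord_symm, polarCoord_target, Measure.volume_eq_prod,
    setLIntegral_prod]
  · refine setLIntegral_congr_fun measurableSet_Ioi fun R hR => ?_
    have hR0 : (0 : ℝ) < R := hR
    have e2 : Ioo (0 : ℝ) Real.pi = Ioo (-Real.pi) Real.pi ∩ Ioi 0 := by
      ext θ; simp only [mem_Ioo, mem_inter_iff, mem_Ioi]
      constructor
      · intro h; exact ⟨⟨by linarith [Real.pi_pos], h.2⟩, h.1⟩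
      · intro h; exact ⟨h.2, h.1.2⟩
    rw [e2, inter_comm, ← Measure.restrict_restrict measurableSet_Ioi,
      ← lintegral_indicator measurableSet_Ioi]
    refine setLIntegral_congr_fun measurableSet_Ioo fun θ hθ => ?_
    rw [polarCoord_symm_apply]
    by_cases h : 0 < θ
    · rw [indicator_of_mem (show (R * Real.cos θ, R * Real.sin θ) ∈ {p : ℝ × ℝ | 0 < p.2} from
        mul_pos hR0 (Real.sin_pos_of_pos_of_lt_pi h hθ.2)), indicator_of_mem (show θ ∈ Ioi 0 from h)]
      rfl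
    · rw [indicator_of_notMem, indicator_of_notMem]
      · simp
      · exact h
      · simp only [mem_ofPred_eq, not_lt]
        have : Real.sin θ ≤ 0 := Real.sin_nonpos_of_nonpos_of_neg_pi_le (not_lt.1 h) hθ.1.le
        exact mul_nonpos_of_nonneg_of_nonpos hR0.le this
  · apply AEMeasurable.restrict
    apply Measurable.aemeasurable
    apply Measurable.mul
    · exact measurable_fst.ennreal_ofReal
    · apply (hg.indicator mI).comp
      exact continuous_polarCoord_symm.measurable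

theorem law_aux {m : ℕ} (hm : Module.finrank ℝ V = m + 2) (x : V)
    {h : ℝ → ℝ≥0∞} (hh : Measurable h) :
    ∫⁻ z in ball (0 : V) 1, h (inner ℝ x z / ‖z‖) =
      (volume : Measure (FF (m + 1))).toSphere univ *
      ((∫⁻ R in Ioo (0 : ℝ) 1, ENNReal.ofReal (R ^ (m + 1))) *
      ∫⁻ θ in Ioo (0 : ℝ) Real.pi, ENNReal.ofReal (Real.sin θ ^ m) * h (‖x‖ * Real.cos θ)) := by
  set H : ℝ → ℝ → ℝ≥0∞ := fun u ρ => (Iio (1 : ℝ)).indicator (fun ρ => h (u / ρ)) ρ with hH
  have mH : Measurable (fun p : ℝ × ℝ => H p.1 p.2) := by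
    have : (fun p : ℝ × ℝ => H p.1 p.2)
        = {p : ℝ × ℝ | p.2 < 1}.indicator (fun p => h (p.1 / p.2)) := by
      ext p
      simp only [hH, indicator]
      rfl
    rw [this]
    apply Measurable.indicator
    · exact hh.comp (measurable_fst.div measurable_snd)
    · exact measurableSet_lt measurable_snd measurable_const
  have e0 : ∫⁻ z in ball (0 : V) 1, h (inner ℝ x z / ‖z‖) = ∫⁻ z : V, H (inner ℝ x z) ‖z‖ := by
    rw [← lintegral_indicator measurableSet_ball]
    refine lintegral_congr fun z => ?_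
    simp only [hH, indicator, mem_ball_zero_iff, mem_Iio]
  have hFF : Module.finrank ℝ (FF (m + 1)) = m + 1 := by simp
  rw [e0, lintegral_inner_norm (m := m + 1) hm x mH]
  have e1 : ∀ a : ℝ, ∫⁻ v : FF (m + 1), H (‖x‖ * a) (√(a ^ 2 + ‖v‖ ^ 2))
      = (volume : Measure (FF (m + 1))).toSphere univ *
        ∫⁻ ρ in Ioi (0 : ℝ), ENNReal.ofReal (ρ ^ m) * H (‖x‖ * a) (√(a ^ 2 + ρ ^ 2)) := by
    intro a
    have mf : Measurable (fun ρ : ℝ => H (‖x‖ * a) (√(a ^ 2 + ρ ^ 2))) := by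
      apply mH.comp (f := fun ρ : ℝ => (‖x‖ * a, √(a ^ 2 + ρ ^ 2)))
      apply Measurable.prodMk measurable_const
      apply Real.continuous_sqrt.measurable.comp
      fun_prop
    have := lintegral_norm_radial (F := FF (m + 1)) mf
    rw [hFF, Nat.add_sub_cancel] at this
    exact this
  have mg : Measurable (fun p : ℝ × ℝ =>
      ENNReal.ofReal (p.2 ^ m) * H (‖x‖ * p.1) (√(p.1 ^ 2 + p.2 ^ 2))) := by
    apply Measurable.mul
    · exact (measurable_snd.pow_const _).ennreal_ofReal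
    · apply mH.comp (f := fun p : ℝ × ℝ => (‖x‖ * p.1, √(p.1 ^ 2 + p.2 ^ 2)))
      apply Measurable.prodMk
      · fun_prop
      · apply Real.continuous_sqrt.measurable.comp
        fun_prop
  simp_rw [e1]
  rw [lintegral_const_mul]
  swap
  · exact Measurable.lintegral_prod_right' (f := fun p : ℝ × ℝ =>
      ENNReal.ofReal (p.2 ^ m) * H (‖x‖ * p.1) (√(p.1 ^ 2 + p.2 ^ 2))) mg
  congr 1
  rw [lintegral_halfplane (g := fun a ρ => ENNReal.ofReal (ρ ^ m) * H (‖x‖ * a) (√(a ^ 2 + ρ ^ 2))) mg]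
  have e2 : ∀ R ∈ Ioi (0 : ℝ), (∫⁻ θ in Ioo (0 : ℝ) Real.pi,
        ENNReal.ofReal R * (ENNReal.ofReal ((R * Real.sin θ) ^ m) *
          H (‖x‖ * (R * Real.cos θ)) (√((R * Real.cos θ) ^ 2 + (R * Real.sin θ) ^ 2))))
      = (Iio (1 : ℝ)).indicator (fun R => ENNReal.ofReal (R ^ (m + 1))) R *
        ∫⁻ θ in Ioo (0 : ℝ) Real.pi, ENNReal.ofReal (Real.sin θ ^ m) * h (‖x‖ * Real.cos θ) := by
    intro R hR
    have hR0 : (0 : ℝ) < R := hR
    rw [← lintegral_const_mul]
    · refine setLIntegral_congr_fun measurableSet_Ioo fun θ hθ => ?_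
      have hs : √((R * Real.cos θ) ^ 2 + (R * Real.sin θ) ^ 2) = R := by
        rw [show (R * Real.cos θ) ^ 2 + (R * Real.sin θ) ^ 2 = R ^ 2 by
          nlinarith [Real.sin_sq_add_cos_sq θ]]
        exact Real.sqrt_sq hR0.le
      rw [hs]
      simp only [hH]
      by_cases h1 : R < 1
      · rw [indicator_of_mem (show R ∈ Iio 1 from h1), indicator_of_mem (show R ∈ Iio 1 from h1)]
        rw [show ‖x‖ * (R * Real.cos θ) / R = ‖x‖ * Real.cos θ by field_simp]
        rw [← mul_assoc, ← mul_assoc, ← ENNReal.ofReal_mul hR0.le, ← ENNReal.ofReal_mul (by positivity)]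
        congr 2
        ring
      · rw [indicator_of_notMem (show R ∉ Iio 1 from h1), indicator_of_notMem (show R ∉ Iio 1 from h1)]
        simp
    · apply Measurable.mul
      · exact (Real.measurable_sin.pow_const _).ennreal_ofReal
      · apply hh.comp
        exact Real.measurable_cos.const_mul _
  rw [setLIntegral_congr_fun measurableSet_Ioi e2, lintegral_mul_const]
  · congr 1
    rw [← lintegral_indicator measurableSet_Ioi, ← lintegral_indicator measurableSet_Ioo]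
    refine lintegral_congr fun R => ?_
    rw [indicator_indicator]
    rfl
  · apply Measurable.indicator _ measurableSet_Iio
    exact (measurable_id.pow_const _).ennreal_ofReal

/-- uniform probability measure on the unit sphere -/
def sig (V : Type*) [NormedAddCommGroup V] [InnerProductSpace ℝ V] [FiniteDimensional ℝ V]
    [MeasurableSpace V] [BorelSpace V] : Measure V :=
  (ProbabilityTheory.cond volume (ball (0 : V) 1)).map (fun z => ‖z‖⁻¹ • z)

theorem measurable_dir : Measurable (fun z : V => ‖z‖⁻¹ • z) :=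
  measurable_norm.inv.smul measurable_id

instance : IsProbabilityMeasure (sig V) := by
  unfold sig
  have : IsProbabilityMeasure (ProbabilityTheory.cond volume (ball (0 : V) 1)) := by
    apply ProbabilityTheory.cond_isProbabilityMeasure_of_finite
    · exact (measure_ball_pos volume (0 : V) one_pos).ne'
    · exact measure_ball_lt_top.ne
  exact Measure.isProbabilityMeasure_map measurable_dir.aemeasurable

theorem lintegral_sig {f : V → ℝ≥0∞} (hf : Measurable f) :
    ∫⁻ y, f y ∂(sig V) = (volume (ball (0 : V) 1))⁻¹ * ∫⁻ z in ball (0 : V) 1, f (‖z‖⁻¹ • z) := by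
  unfold sig
  rw [lintegral_map hf measurable_dir, ProbabilityTheory.cond, lintegral_smul_measure, smul_eq_mul]

theorem ae_sig [Nontrivial V] : ∀ᵐ y ∂(sig V), ‖y‖ = 1 := by
  unfold sig
  rw [ae_map_iff measurable_dir.aemeasurable (measurableSet_eq_fun measurable_norm measurable_const)]
  have h0 : ∀ᵐ z ∂(volume : Measure V), z ≠ 0 := by
    rw [ae_iff]; simp
  have h1 : ∀ᵐ z ∂(ProbabilityTheory.cond volume (ball (0 : V) 1)), z ≠ 0 := by
    apply (ProbabilityTheory.cond_absolutelyContinuous).ae_le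
    exact h0
  filter_upwards [h1] with z hz
  rw [norm_smul, norm_inv, norm_norm, inv_mul_cancel₀ (norm_ne_zero_iff.2 hz)]

/-- total weight -/
def S (m : ℕ) : ℝ≥0∞ := ∫⁻ θ in Ioo (0 : ℝ) Real.pi, ENNReal.ofReal (Real.sin θ ^ m)

theorem pot_mul [Nontrivial V] {m : ℕ} (hm : Module.finrank ℝ V = m + 2) (x : V) :
    (∫⁻ y, Lam (‖x - y‖ ^ 2 / 4) ∂(sig V)) * S m =
      ∫⁻ θ in Ioo (0 : ℝ) Real.pi, ENNReal.ofReal (Real.sin θ ^ m) *
        Lam ((‖x‖ ^ 2 + 1 - 2 * (‖x‖ * Real.cos θ)) / 4) := by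
  have mL : Measurable (fun y : V => Lam (‖x - y‖ ^ 2 / 4)) := by
    apply measurable_lam.comp
    fun_prop
  have mh : Measurable (fun u : ℝ => Lam ((‖x‖ ^ 2 + 1 - 2 * u) / 4)) := by
    apply measurable_lam.comp
    fun_prop
  have e1 : ∫⁻ z in ball (0 : V) 1, Lam (‖x - ‖z‖⁻¹ • z‖ ^ 2 / 4)
      = ∫⁻ z in ball (0 : V) 1, Lam ((‖x‖ ^ 2 + 1 - 2 * (inner ℝ x z / ‖z‖)) / 4) := by
    apply lintegral_congr_ae
    apply ae_restrict_of_ae
    have h0 : ∀ᵐ z ∂(volume : Measure V), z ≠ 0 := by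
      rw [ae_iff]; simp
    filter_upwards [h0] with z hz
    have hz' : ‖z‖ ≠ 0 := norm_ne_zero_iff.2 hz
    rw [norm_sub_sq_real, inner_smul_right, norm_smul, norm_inv, norm_norm, inv_mul_cancel₀ hz']
    congr 1
    field_simp
    ring
  have hA := law_aux hm x (h := fun _ => 1) measurable_const
  have hI := law_aux hm x mh
  rw [lintegral_sig mL, e1, hI]
  simp only [mul_one, lintegral_const, Measure.restrict_apply MeasurableSet.univ, univ_inter,
    one_mul] at hA
  change volume (ball (0 : V) 1) = _ * (_ * S m) at hA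
  have p0 : volume (ball (0 : V) 1) ≠ 0 := (measure_ball_pos volume (0 : V) one_pos).ne'
  have p1 : volume (ball (0 : V) 1) ≠ ∞ := measure_ball_lt_top.ne
  have : (volume (ball (0 : V) 1))⁻¹ * volume (ball (0 : V) 1) = 1 := ENNReal.inv_mul_cancel p0 p1
  generalize (∫⁻ θ in Ioo (0 : ℝ) Real.pi, ENNReal.ofReal (Real.sin θ ^ m) *
        Lam ((‖x‖ ^ 2 + 1 - 2 * (‖x‖ * Real.cos θ)) / 4)) = I
  generalize (∫⁻ R in Ioo (0 : ℝ) 1, ENNReal.ofReal (R ^ (m + 1))) = D at hA
  generalize (volume : Measure (FF (m + 1))).toSphere univ = C at hA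
  calc (volume (ball (0 : V) 1))⁻¹ * (C * (D * I)) * S m
      = (volume (ball (0 : V) 1))⁻¹ * (C * (D * S m)) * I := by ring
    _ = I := by rw [← hA, this, one_mul]

end iso

end

end Pool.Agent.Helper68.LC
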