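import Mathlib
import Pool.Agent.Helper68.Sph

open MeasureTheory Set ENNReal Metric

namespace Pool.Agent.Helper68.LC

noncomputable section

set_option linter.unusedSectionVars false

/-- the argument of Lam -/
def ss (r θ : ℝ) : ℝ := (r ^ 2 + 1 - 2 * (r * Real.cos θ)) / 4

theorem ss_pos {r θ : ℝ} (_hr1 : r ≤ 1) (hr0 : 0 ≤ r) (hθ : θ ∈ Ioo (0 : ℝ) Real.pi) : 0 < ss r θ := by
  unfold ss
  have hc : Real.cos θ < 1 := by
    have := Real.cos_lt_cos_of_nonneg_of_le_pi (le_refl 0) hθ.2.le hθ.1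
    simpa using this
  have h : 0 < r ^ 2 + 1 - 2 * (r * Real.cos θ) := by
    rcases hr0.eq_or_lt with h | h
    · rw [← h]; norm_num
    · nlinarith [mul_pos h (sub_pos.2 hc), sq_nonneg (r - 1)]
  linarith

theorem ss_le {r θ : ℝ} (hr1 : r ≤ 1) (hr0 : 0 ≤ r) : ss r θ ≤ 1 := by
  unfold ss
  have hc := Real.neg_one_le_cos θ
  nlinarith [mul_nonneg hr0 (by linarith : 0 ≤ Real.cos θ + 1)]

/-- the real integrand -/
def gg (m : ℕ) (r θ : ℝ) : ℝ := Real.sin θ ^ m * (-Real.log (ss r θ))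

theorem gg_nonneg {m : ℕ} {r θ : ℝ} (hr1 : r ≤ 1) (hr0 : 0 ≤ r) (hθ : θ ∈ Ioo (0 : ℝ) Real.pi) :
    0 ≤ gg m r θ := by
  unfold gg
  have h1 := Real.sin_pos_of_pos_of_lt_pi hθ.1 hθ.2
  have h2 := Real.log_nonpos (ss_pos hr1 hr0 hθ).le (ss_le hr1 hr0)
  have h3 : 0 ≤ -Real.log (ss r θ) := by linarith
  positivity

theorem lintegral_eq_real {m : ℕ} {r : ℝ} (hr1 : r ≤ 1) (hr0 : 0 ≤ r)
    (hi : IntervalIntegrable (gg m r) volume 0 Real.pi) :
    ∫⁻ θ in Ioo (0 : ℝ) Real.pi, ENNReal.ofReal (Real.sin θ ^ m) *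
        Lam ((r ^ 2 + 1 - 2 * (r * Real.cos θ)) / 4)
      = ENNReal.ofReal (∫ θ in (0 : ℝ)..Real.pi, gg m r θ) := by
  have e : ∀ θ ∈ Ioo (0 : ℝ) Real.pi, ENNReal.ofReal (Real.sin θ ^ m) *
        Lam ((r ^ 2 + 1 - 2 * (r * Real.cos θ)) / 4) = ENNReal.ofReal (gg m r θ) := by
    intro θ hθ
    have h1 := Real.sin_pos_of_pos_of_lt_pi hθ.1 hθ.2
    rw [show (r ^ 2 + 1 - 2 * (r * Real.cos θ)) / 4 = ss r θ from rfl,
      lam_eq (ss_pos hr1 hr0 hθ) (ss_le hr1 hr0), ← ENNReal.ofReal_mul (by positivity)]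
    rfl
  rw [setLIntegral_congr_fun measurableSet_Ioo e, intervalIntegral.integral_of_le Real.pi_pos.le,
    integral_Ioc_eq_integral_Ioo, ofReal_integral_eq_lintegral_ofReal]
  · exact ((intervalIntegrable_iff_integrableOn_Ioo_of_le Real.pi_pos.le).1 hi)
  · filter_upwards [ae_restrict_mem measurableSet_Ioo] with θ hθ using gg_nonneg hr1 hr0 hθ

theorem S_eq (m : ℕ) : S m = ENNReal.ofReal (∫ θ in (0 : ℝ)..Real.pi, Real.sin θ ^ m) := by
  unfold S
  rw [intervalIntegral.integral_of_le Real.pi_pos.le,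
    integral_Ioc_eq_integral_Ioo, ofReal_integral_eq_lintegral_ofReal]
  · have : IntervalIntegrable (fun θ => Real.sin θ ^ m) volume 0 Real.pi := by
      apply Continuous.intervalIntegrable
      fun_prop
    exact ((intervalIntegrable_iff_integrableOn_Ioo_of_le Real.pi_pos.le).1 this)
  · filter_upwards [ae_restrict_mem measurableSet_Ioo] with θ hθ
    have h1 := Real.sin_pos_of_pos_of_lt_pi hθ.1 hθ.2
    positivity

theorem S_one : S 1 = 2 := by
  rw [S_eq]
  simp only [pow_one]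
  rw [integral_sin]
  norm_num

theorem S_two : S 2 = ENNReal.ofReal (Real.pi / 2) := by
  rw [S_eq, integral_sin_sq]
  simp

/-! dimension three -/

/-- antiderivative -/
def A3 (r θ : ℝ) : ℝ :=
  -(1 / (2 * r)) * (4 * (ss r θ * Real.log (ss r θ)) - 4 * ss r θ)

theorem hasDerivAt_ss (r θ : ℝ) : HasDerivAt (ss r) (r * Real.sin θ / 2) θ := by
  have h : HasDerivAt (fun θ => (r ^ 2 + 1 - 2 * (r * Real.cos θ)) / 4)
      ((0 - 2 * (r * (-Real.sin θ))) / 4) θ :=
    ((hasDerivAt_const θ (r ^ 2 + 1)).sub (((Real.hasDerivAt_cos θ).const_mul r).const_mul 2)).div_const 4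
  have e : (0 - 2 * (r * (-Real.sin θ))) / 4 = r * Real.sin θ / 2 := by ring
  rw [e] at h
  exact h

theorem continuous_ss (r : ℝ) : Continuous (ss r) := by
  unfold ss
  fun_prop

theorem A3_cont (r : ℝ) : Continuous (A3 r) := by
  unfold A3
  have h1 : Continuous (fun θ => ss r θ * Real.log (ss r θ)) :=
    Real.continuous_mul_log.comp (continuous_ss r)
  have h2 := continuous_ss r
  fun_prop

theorem A3_deriv {r θ : ℝ} (hr1 : r ≤ 1) (hr0 : 0 < r) (hθ : θ ∈ Ioo (0 : ℝ) Real.pi) :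
    HasDerivAt (A3 r) (gg 1 r θ) θ := by
  have hs := ss_pos hr1 hr0.le hθ
  have h1 := hasDerivAt_ss r θ
  have h2 : HasDerivAt (fun θ => ss r θ * Real.log (ss r θ))
      ((r * Real.sin θ / 2) * Real.log (ss r θ) + ss r θ * ((r * Real.sin θ / 2) / ss r θ)) θ :=
    h1.mul (h1.log hs.ne')
  have h3 := ((h2.const_mul 4).sub (h1.const_mul 4)).const_mul (-(1 / (2 * r)))
  have e : gg 1 r θ = -(1 / (2 * r)) * (4 * (r * Real.sin θ / 2 * Real.log (ss r θ) + ss r θ * (r * Real.sin θ / 2 / ss r θ)) -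
        4 * (r * Real.sin θ / 2)) := by
    unfold gg
    field_simp
    ring
  rw [e]
  exact h3

theorem gg1_int {r : ℝ} (hr1 : r ≤ 1) (hr0 : 0 < r) :
    IntervalIntegrable (gg 1 r) volume 0 Real.pi := by
  apply intervalIntegral.intervalIntegrable_deriv_of_nonneg (g := A3 r)
  · exact (A3_cont r).continuousOn
  · intro θ hθ
    rw [min_eq_left Real.pi_pos.le, max_eq_right Real.pi_pos.le] at hθ
    exact A3_deriv hr1 hr0 hθ
  · intro θ hθ
    rw [min_eq_left Real.pi_pos.le, max_eq_right Real.pi_pos.le] at hθ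
    exact gg_nonneg hr1 hr0.le hθ

theorem gg1_val {r : ℝ} (hr1 : r ≤ 1) (hr0 : 0 < r) :
    ∫ θ in (0 : ℝ)..Real.pi, gg 1 r θ = A3 r Real.pi - A3 r 0 := by
  apply intervalIntegral.integral_eq_sub_of_hasDerivAt_of_le Real.pi_pos.le
  · exact (A3_cont r).continuousOn
  · intro θ hθ
    exact A3_deriv hr1 hr0 hθ
  · exact gg1_int hr1 hr0

theorem gg1_val_one : ∫ θ in (0 : ℝ)..Real.pi, gg 1 1 θ = 2 := by
  rw [gg1_val le_rfl one_pos]
  unfold A3 ss
  simp
  norm_num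

theorem entropy_ineq {α : ℝ} (h0 : 0 ≤ α) (h1 : α ≤ 1 / 2) :
    (1 - α) ^ 2 * Real.log (1 - α) ≤ α ^ 2 * Real.log α := by
  rcases h0.eq_or_lt with h | h
  · rw [← h]; simp
  have hc := Real.convexOn_mul_log
  have := hc.secant_mono (a := 1) (x := α) (y := 1 - α) (by simp) (by simpa using h.le)
    (by simp; linarith) (by linarith) (by linarith) (by linarith)
  simp only [Real.log_one, mul_zero, sub_zero] at this
  have hm := mul_le_mul_of_nonneg_left this (show 0 ≤ α * (1 - α) by nlinarith)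
  have n1 : α - 1 ≠ 0 := by linarith
  have n2 : α ≠ 0 := h.ne'
  have e1 : α * (1 - α) * (α * Real.log α / (α - 1)) = -(α ^ 2 * Real.log α) := by
    field_simp
    ring
  have e2 : α * (1 - α) * ((1 - α) * Real.log (1 - α) / (1 - α - 1))
      = -((1 - α) ^ 2 * Real.log (1 - α)) := by
    rw [show 1 - α - 1 = -α by ring]
    field_simp
  rw [e1, e2] at hm
  linarith

theorem gg1_ge {r : ℝ} (hr1 : r ≤ 1) (hr0 : 0 < r) :
    2 ≤ ∫ θ in (0 : ℝ)..Real.pi, gg 1 r θ := by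
  rw [gg1_val hr1 hr0]
  have h := entropy_ineq (α := (1 - r) / 2) (by linarith) (by linarith)
  have e1 : A3 r Real.pi = -(1 / (2 * r)) * (4 * (((1 + r) / 2) ^ 2 * (2 * Real.log ((1 + r) / 2))) - (1 + r) ^ 2) := by
    unfold A3 ss
    rw [Real.cos_pi, show (r ^ 2 + 1 - 2 * (r * -1)) / 4 = ((1 + r) / 2) ^ 2 by ring, Real.log_pow]
    push_cast
    ring
  have e2 : A3 r 0 = -(1 / (2 * r)) * (4 * (((1 - r) / 2) ^ 2 * (2 * Real.log ((1 - r) / 2))) - (1 - r) ^ 2) := by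
    unfold A3 ss
    rw [Real.cos_zero, show (r ^ 2 + 1 - 2 * (r * 1)) / 4 = ((1 - r) / 2) ^ 2 by ring, Real.log_pow]
    push_cast
    ring
  rw [e1, e2]
  have e3 : 1 - (1 - r) / 2 = (1 + r) / 2 := by ring
  rw [e3] at h
  have e4 : -(1 / (2 * r)) * (4 * (((1 + r) / 2) ^ 2 * (2 * Real.log ((1 + r) / 2))) - (1 + r) ^ 2)
      - -(1 / (2 * r)) * (4 * (((1 - r) / 2) ^ 2 * (2 * Real.log ((1 - r) / 2))) - (1 - r) ^ 2)
      = 2 + (4 / r) * (((1 - r) / 2) ^ 2 * Real.log ((1 - r) / 2) - ((1 + r) / 2) ^ 2 * Real.log ((1 + r) / 2)) := by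
    field_simp
    ring
  rw [e4]
  have : 0 ≤ (4 / r) * (((1 - r) / 2) ^ 2 * Real.log ((1 - r) / 2) - ((1 + r) / 2) ^ 2 * Real.log ((1 + r) / 2)) := by
    apply mul_nonneg
    · positivity
    · linarith
  linarith

/-! dimension four -/

theorem ss_one {θ : ℝ} : ss 1 θ = Real.sin (θ / 2) ^ 2 := by
  unfold ss
  have h1 : Real.cos θ = 2 * Real.cos (θ / 2) ^ 2 - 1 := by
    rw [← Real.cos_two_mul]; congr 1; ring
  have h2 := Real.sin_sq_add_cos_sq (θ / 2)
  nlinarith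

/-- first part of the antiderivative -/
def P4 (θ : ℝ) : ℝ :=
  2 * (Real.cos (θ / 2) * Real.cos θ) * (Real.sin (θ / 2) * Real.log (Real.sin (θ / 2)))
    - Real.sin θ / 2 - θ / 4 - Real.sin (2 * θ) / 8

theorem P4_cont : Continuous P4 := by
  unfold P4
  have h1 : Continuous (fun θ : ℝ => Real.sin (θ / 2) * Real.log (Real.sin (θ / 2))) :=
    Real.continuous_mul_log.comp (by fun_prop)
  fun_prop

theorem P4_deriv {θ : ℝ} (hθ : θ ∈ Ioo (0 : ℝ) Real.pi) :
    HasDerivAt P4 (Real.cos (2 * θ) * Real.log (Real.sin (θ / 2))) θ := by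
  have hs : 0 < Real.sin (θ / 2) :=
    Real.sin_pos_of_pos_of_lt_pi (by linarith [hθ.1]) (by linarith [hθ.2, Real.pi_pos])
  have e : P4 = fun θ => Real.sin (2 * θ) / 2 * Real.log (Real.sin (θ / 2))
      - Real.sin θ / 2 - θ / 4 - Real.sin (2 * θ) / 8 := by
    ext θ
    unfold P4
    have h1 : Real.sin θ = 2 * Real.sin (θ / 2) * Real.cos (θ / 2) := by
      rw [← Real.sin_two_mul]; congr 1; ring
    rw [Real.sin_two_mul, h1]
    ring
  rw [e]
  have d1 : HasDerivAt (fun θ : ℝ => Real.sin (2 * θ)) (Real.cos (2 * θ) * (2 * 1)) θ :=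
    ((hasDerivAt_id θ).const_mul 2).sin
  have d2 : HasDerivAt (fun θ : ℝ => Real.sin (θ / 2)) (Real.cos (θ / 2) * (1 / 2)) θ :=
    ((hasDerivAt_id θ).div_const 2).sin
  have d3 := ((d1.div_const 2).mul (d2.log hs.ne'))
  have d4 := ((d3.sub ((Real.hasDerivAt_sin θ).div_const 2)).sub
    ((hasDerivAt_id θ).div_const 4)).sub (d1.div_const 8)
  have e2 : Real.cos (2 * θ) * Real.log (Real.sin (θ / 2))
      = Real.cos (2 * θ) * (2 * 1) / 2 * Real.log (Real.sin (θ / 2)) +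
            Real.sin (2 * θ) / 2 * (Real.cos (θ / 2) * (1 / 2) / Real.sin (θ / 2)) -
          Real.cos θ / 2 - 1 / 4 - Real.cos (2 * θ) * (2 * 1) / 8 := by
    have h1 : Real.sin (2 * θ) = 4 * Real.sin (θ / 2) * Real.cos (θ / 2) * Real.cos θ := by
      rw [Real.sin_two_mul, show Real.sin θ = 2 * Real.sin (θ / 2) * Real.cos (θ / 2) by
        rw [← Real.sin_two_mul]; congr 1; ring]
      ring
    have h2 : Real.sin (2 * θ) / 2 * (Real.cos (θ / 2) * (1 / 2) / Real.sin (θ / 2))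
        = Real.cos (θ / 2) ^ 2 * Real.cos θ := by
      rw [h1]; field_simp; ring
    have h3 : Real.cos θ = 2 * Real.cos (θ / 2) ^ 2 - 1 := by
      rw [← Real.cos_two_mul]; congr 1; ring
    have h4 : Real.cos (θ / 2) ^ 2 = (Real.cos θ + 1) / 2 := by linarith
    rw [h2, h4, Real.cos_two_mul]
    ring
  rw [e2]
  exact d4

theorem int_log_half : IntervalIntegrable (fun θ : ℝ => Real.log (Real.sin (θ / 2))) volume 0 Real.pi := by
  have h := (intervalIntegrable_log_sin (a := 0) (b := Real.pi / 2)).comp_mul_left (c := 1 / 2)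
  have e1 : (0 : ℝ) / (1 / 2) = 0 := by norm_num
  have e2 : Real.pi / 2 / (1 / 2) = Real.pi := by ring
  rw [e1, e2] at h
  refine h.congr ?_
  intro θ _
  simp only [Function.comp]
  rw [show 1 / 2 * θ = θ / 2 by ring]

theorem val_log_half : ∫ θ in (0 : ℝ)..Real.pi, Real.log (Real.sin (θ / 2)) = -(Real.pi * Real.log 2) := by
  have h := intervalIntegral.integral_comp_div (a := 0) (b := Real.pi) (fun x => Real.log (Real.sin x)) (two_ne_zero)
  rw [h, zero_div, integral_log_sin_zero_pi_div_two]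
  simp
  ring

theorem gg2_one (θ : ℝ) : gg 2 1 θ = -Real.log (Real.sin (θ / 2))
    + Real.cos (2 * θ) * Real.log (Real.sin (θ / 2)) := by
  unfold gg
  rw [ss_one, Real.log_pow, Real.cos_two_mul]
  have h2 := Real.sin_sq_add_cos_sq θ
  have h3 : Real.sin θ ^ 2 = 1 - Real.cos θ ^ 2 := by linarith
  rw [h3]
  push_cast
  ring

theorem int_cos_log : IntervalIntegrable
    (fun θ : ℝ => Real.cos (2 * θ) * Real.log (Real.sin (θ / 2))) volume 0 Real.pi := by
  apply int_log_half.continuousOn_mul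
  fun_prop

theorem gg2_one_int : IntervalIntegrable (gg 2 1) volume 0 Real.pi := by
  have e : gg 2 1 = fun θ => -Real.log (Real.sin (θ / 2))
    + Real.cos (2 * θ) * Real.log (Real.sin (θ / 2)) := funext gg2_one
  rw [e]
  exact int_log_half.neg.add int_cos_log

theorem gg2_one_val : ∫ θ in (0 : ℝ)..Real.pi, gg 2 1 θ = Real.pi / 2 * (2 * Real.log 2 - 1 / 2) := by
  have e : gg 2 1 = fun θ => -Real.log (Real.sin (θ / 2))
    + Real.cos (2 * θ) * Real.log (Real.sin (θ / 2)) := funext gg2_one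
  have h1 : ∫ θ in (0 : ℝ)..Real.pi, Real.cos (2 * θ) * Real.log (Real.sin (θ / 2)) = P4 Real.pi - P4 0 := by
    apply intervalIntegral.integral_eq_sub_of_hasDerivAt_of_le Real.pi_pos.le P4_cont.continuousOn
    · intro θ hθ
      exact P4_deriv hθ
    · exact int_cos_log
  have h2 : P4 Real.pi - P4 0 = -(Real.pi / 4) := by
    unfold P4
    simp [Real.sin_two_mul]
  have hn : IntervalIntegrable (fun θ : ℝ => -Real.log (Real.sin (θ / 2))) volume 0 Real.pi :=
    int_log_half.neg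
  rw [e, intervalIntegral.integral_add hn int_cos_log, intervalIntegral.integral_neg,
    val_log_half, h1, h2]
  ring

theorem gg2_int {r : ℝ} (hr1 : r < 1) (hr0 : 0 ≤ r) : IntervalIntegrable (gg 2 r) volume 0 Real.pi := by
  apply Continuous.intervalIntegrable
  unfold gg
  have hs : ∀ θ, ss r θ ≠ 0 := by
    intro θ
    unfold ss
    have hc := Real.cos_le_one θ
    have : 0 < r ^ 2 + 1 - 2 * (r * Real.cos θ) := by nlinarith [mul_nonneg hr0 (sub_nonneg.2 hc)]
    linarith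
  have h2 : Continuous (fun θ => Real.log (ss r θ)) := (continuous_ss r).log hs
  fun_prop

theorem gg2_ge {r : ℝ} (hr1 : r ≤ 1) (hr0 : 0 ≤ r) :
    Real.pi / 2 * (2 * Real.log 2 - 1 / 2) ≤ ∫ θ in (0 : ℝ)..Real.pi, gg 2 r θ := by
  rcases hr1.eq_or_lt with h | h
  · rw [h, gg2_one_val]
  set L : ℝ → ℝ := fun θ => gg 2 1 θ -
    ((r ^ 2 + 1 - 2 * (r * Real.cos θ)) * (1 + Real.cos θ) / 2 - Real.sin θ ^ 2) with hL
  have hc : Continuous (fun θ : ℝ => (r ^ 2 + 1 - 2 * (r * Real.cos θ)) * (1 + Real.cos θ) / 2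
      - Real.sin θ ^ 2) := by fun_prop
  have iL : IntervalIntegrable L volume 0 Real.pi := gg2_one_int.sub (hc.intervalIntegrable _ _)
  have hle : ∫ θ in (0 : ℝ)..Real.pi, L θ ≤ ∫ θ in (0 : ℝ)..Real.pi, gg 2 r θ := by
    apply intervalIntegral.integral_mono_on_of_le_Ioo Real.pi_pos.le iL (gg2_int h hr0)
    intro θ hθ
    have s1 := ss_pos le_rfl zero_le_one hθ
    have sr := ss_pos hr1 hr0 hθ
    have hsin := Real.sin_pos_of_pos_of_lt_pi hθ.1 hθ.2
    have hlog : Real.log (ss r θ) ≤ Real.log (ss 1 θ) + (ss r θ / ss 1 θ - 1) := by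
      have := Real.log_le_sub_one_of_pos (div_pos sr s1)
      rw [Real.log_div sr.ne' s1.ne'] at this
      linarith
    have hq : Real.sin θ ^ 2 * (ss r θ / ss 1 θ) = (r ^ 2 + 1 - 2 * (r * Real.cos θ)) * (1 + Real.cos θ) / 2 := by
      have e1 : ss 1 θ = (1 - Real.cos θ) / 2 := by unfold ss; ring
      have e2 : Real.sin θ ^ 2 = (1 - Real.cos θ) * (1 + Real.cos θ) := by
        have := Real.sin_sq_add_cos_sq θ
        nlinarith
      have e3 : 1 - Real.cos θ ≠ 0 := by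
        rw [e1] at s1
        intro h0
        rw [h0] at s1
        norm_num at s1
      rw [e1, e2]
      unfold ss
      field_simp
      ring
    simp only [hL]
    unfold gg
    have := mul_le_mul_of_nonneg_left hlog (sq_nonneg (Real.sin θ))
    nlinarith
  have hval : ∫ θ in (0 : ℝ)..Real.pi, L θ = Real.pi / 2 * (2 * Real.log 2 - 1 / 2)
      + Real.pi / 2 * (r - r ^ 2) := by
    rw [hL, intervalIntegral.integral_sub gg2_one_int (hc.intervalIntegrable _ _), gg2_one_val]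
    have : ∫ θ in (0 : ℝ)..Real.pi, ((r ^ 2 + 1 - 2 * (r * Real.cos θ)) * (1 + Real.cos θ) / 2
      - Real.sin θ ^ 2) = Real.pi / 2 * (r ^ 2 - r) := by
      rw [intervalIntegral.integral_eq_sub_of_hasDerivAt
        (f := fun θ => (r ^ 2 + 1) / 2 * θ + ((r ^ 2 + 1) / 2 - r) * Real.sin θ
          - r * (θ / 2 + Real.sin θ * Real.cos θ / 2) - (θ / 2 - Real.sin θ * Real.cos θ / 2))]
      · simp
        ring
      · intro θ _
        have d1 := Real.hasDerivAt_sin θ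
        have d2 := Real.hasDerivAt_cos θ
        have d3 := (d1.mul d2).div_const 2
        have d4 := hasDerivAt_id θ
        have d5 := (((d4.const_mul ((r ^ 2 + 1) / 2)).add (d1.const_mul ((r ^ 2 + 1) / 2 - r))).sub
          (((d4.div_const 2).add d3).const_mul r)).sub ((d4.div_const 2).sub d3)
        have e1 : (r ^ 2 + 1 - 2 * (r * Real.cos θ)) * (1 + Real.cos θ) / 2 - Real.sin θ ^ 2
          = (r ^ 2 + 1) / 2 * 1 + ((r ^ 2 + 1) / 2 - r) * Real.cos θ -
              r * (1 / 2 + (Real.cos θ * Real.cos θ + Real.sin θ * -Real.sin θ) / 2) -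
            (1 / 2 - (Real.cos θ * Real.cos θ + Real.sin θ * -Real.sin θ) / 2) := by
          have h2 := Real.sin_sq_add_cos_sq θ
          have h3 : Real.sin θ ^ 2 = 1 - Real.cos θ ^ 2 := by linarith
          rw [show Real.sin θ * -Real.sin θ = -Real.sin θ ^ 2 by ring, h3]
          ring
        rw [e1]
        exact d5
      · exact hc.intervalIntegrable _ _
    rw [this]
    ring
  have : 0 ≤ Real.pi / 2 * (r - r ^ 2) := by
    apply mul_nonneg (by positivity)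
    nlinarith
  linarith

/-! the potential bounds -/

section final

variable {V : Type*} [NormedAddCommGroup V] [InnerProductSpace ℝ V] [FiniteDimensional ℝ V]
  [MeasurableSpace V] [BorelSpace V] [Nontrivial V]

theorem le_of_mul_S {m : ℕ} {c : ℝ} (_hc : 0 ≤ c) {A : ℝ≥0∞} {w : ℝ} (hw : 0 < w)
    (hS : S m = ENNReal.ofReal w) (h : ENNReal.ofReal (w * c) ≤ A * S m) : ENNReal.ofReal c ≤ A := by
  rw [hS, ENNReal.ofReal_mul hw.le, mul_comm A] at h
  exact (ENNReal.mul_le_mul_iff_right (by simpa using hw) ENNReal.ofReal_ne_top).1 h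

theorem eq_of_mul_S {m : ℕ} {c : ℝ} (hc : 0 ≤ c) {A : ℝ≥0∞} {w : ℝ} (hw : 0 < w)
    (hS : S m = ENNReal.ofReal w) (h : ENNReal.ofReal (w * c) = A * S m) : A = ENNReal.ofReal c := by
  apply le_antisymm
  · rw [hS, ENNReal.ofReal_mul hw.le, mul_comm A] at h
    exact (ENNReal.mul_le_mul_iff_right (by simpa using hw) ENNReal.ofReal_ne_top).1 h.ge
  · exact le_of_mul_S hc hw hS h.le

theorem S_one' : S 1 = ENNReal.ofReal 2 := by rw [S_one]; norm_num

theorem pot3_ge (hm : Module.finrank ℝ V = 3) (x : V) (hx : ‖x‖ ≤ 1) :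
    ENNReal.ofReal 1 ≤ ∫⁻ y, Lam (‖x - y‖ ^ 2 / 4) ∂(sig V) := by
  apply le_of_mul_S (m := 1) zero_le_one two_pos S_one'
  rw [pot_mul (m := 1) hm x]
  rcases (norm_nonneg x).eq_or_lt with h0 | h0
  · have e : ∀ θ : ℝ, Lam ((‖x‖ ^ 2 + 1 - 2 * (‖x‖ * Real.cos θ)) / 4) = ENNReal.ofReal (2 * Real.log 2) := by
      intro θ
      rw [← h0, show ((0 : ℝ) ^ 2 + 1 - 2 * (0 * Real.cos θ)) / 4 = 1 / 4 by ring,
        lam_eq (by norm_num) (by norm_num)]
      congr 1
      rw [one_div, Real.log_inv, neg_neg, show (4 : ℝ) = 2 ^ 2 by norm_num, Real.log_pow]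
      push_cast
      ring
    simp_rw [e]
    rw [lintegral_mul_const _ (by fun_prop)]
    change _ ≤ S 1 * _
    rw [S_one', ← ENNReal.ofReal_mul (by norm_num)]
    apply ENNReal.ofReal_le_ofReal
    have := Real.log_two_gt_d9
    linarith
  · rw [lintegral_eq_real hx h0.le (gg1_int hx h0)]
    apply ENNReal.ofReal_le_ofReal
    have := gg1_ge hx h0
    linarith

theorem pot3_eq (hm : Module.finrank ℝ V = 3) (x : V) (hx : ‖x‖ = 1) :
    ∫⁻ y, Lam (‖x - y‖ ^ 2 / 4) ∂(sig V) = ENNReal.ofReal 1 := by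
  apply eq_of_mul_S (m := 1) zero_le_one two_pos S_one'
  rw [pot_mul (m := 1) hm x, hx, lintegral_eq_real le_rfl zero_le_one (gg1_int le_rfl one_pos),
    gg1_val_one, mul_one]

theorem c4_nonneg : 0 ≤ 2 * Real.log 2 - 1 / 2 := by
  have := Real.log_two_gt_d9
  linarith

theorem pot4_ge (hm : Module.finrank ℝ V = 4) (x : V) (hx : ‖x‖ ≤ 1) :
    ENNReal.ofReal (2 * Real.log 2 - 1 / 2) ≤ ∫⁻ y, Lam (‖x - y‖ ^ 2 / 4) ∂(sig V) := by
  apply le_of_mul_S (m := 2) c4_nonneg (by positivity) S_two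
  have hi : IntervalIntegrable (gg 2 ‖x‖) volume 0 Real.pi := by
    rcases hx.eq_or_lt with h | h
    · rw [h]; exact gg2_one_int
    · exact gg2_int h (norm_nonneg x)
  rw [pot_mul (m := 2) hm x, lintegral_eq_real hx (norm_nonneg x) hi]
  exact ENNReal.ofReal_le_ofReal (gg2_ge hx (norm_nonneg x))

theorem pot4_eq (hm : Module.finrank ℝ V = 4) (x : V) (hx : ‖x‖ = 1) :
    ∫⁻ y, Lam (‖x - y‖ ^ 2 / 4) ∂(sig V) = ENNReal.ofReal (2 * Real.log 2 - 1 / 2) := by
  apply eq_of_mul_S (m := 2) c4_nonneg (by positivity) S_two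
  rw [pot_mul (m := 2) hm x, hx, lintegral_eq_real le_rfl zero_le_one gg2_one_int, gg2_one_val]

/-- main lower bound for the Frullani energy of a measure on the unit ball -/
theorem LE_ge {c : ℝ≥0∞} (hc : c ≠ ∞) (h1 : ∀ x : V, ‖x‖ ≤ 1 → c ≤ ∫⁻ y, Lam (‖x - y‖ ^ 2 / 4) ∂(sig V))
    (h2 : ∀ x : V, ‖x‖ = 1 → ∫⁻ y, Lam (‖x - y‖ ^ 2 / 4) ∂(sig V) = c)
    (μ : Measure V) [IsProbabilityMeasure μ] (hμ : ∀ᵐ x ∂μ, ‖x‖ ≤ 1) : c ≤ LE μ μ := by
  have hσ : ∀ᵐ x ∂(sig V), ‖x‖ ≤ 1 := ae_sig.mono fun x hx => hx.le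
  have h := two_LE_le μ (sig V) hμ hσ
  have e1 : LE (sig V) (sig V) = c := by
    unfold LE
    rw [lintegral_congr_ae (ae_sig.mono fun x hx => h2 x hx)]
    simp
  have e2 : c ≤ LE μ (sig V) := by
    unfold LE
    calc c = ∫⁻ _, c ∂μ := by simp
      _ ≤ _ := lintegral_mono_ae (hμ.mono fun x hx => h1 x hx)
  rw [e1] at h
  have h3 : c + c ≤ LE μ μ + c := by
    calc c + c = 2 * c := by ring
      _ ≤ 2 * LE μ (sig V) := by gcongr
      _ ≤ _ := h
  exact (ENNReal.add_le_add_iff_right hc).1 h3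

end final

end

end Pool.Agent.Helper68.LC
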