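import Mathlib
import Pool.Agent.Helper68.Pot
import Pool.Agent.Helper68.LogCapDef

open MeasureTheory Set ENNReal Metric

namespace Pool.Agent.Helper68.LC

noncomputable section

set_option linter.unusedSectionVars false

abbrev E (n : ℕ) := EuclideanSpace ℝ (Fin n)

/-! bridge -/

open Classical in
/-- `log (2 / |x-y|)` as a nonnegative extended real -/
def Phi {n : ℕ} (x y : E n) : ℝ≥0∞ := if x = y then ⊤ else ENNReal.ofReal (Real.log 2 - Real.log (dist x y))

theorem logKernel_self {n : ℕ} (x : E n) : logKernel x x = ⊤ := by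
  simp [logKernel]

theorem logKernel_of_ne {n : ℕ} {x y : E n} (h : x ≠ y) :
    logKernel x y = ((-Real.log (dist x y) : ℝ) : EReal) := by
  unfold logKernel
  rw [ENNReal.log_inv, edist_dist, ENNReal.log_ofReal_of_pos (dist_pos.2 h), EReal.coe_neg]

theorem log_two_pos : 0 < Real.log 2 := Real.log_pos one_lt_two

theorem Phi_add {n : ℕ} {x y : E n} (h : dist x y ≤ 2) :
    Phi x y + (-logKernel x y).toENNReal = (logKernel x y).toENNReal + ENNReal.ofReal (Real.log 2) := by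
  by_cases hxy : x = y
  · subst hxy
    rw [logKernel_self]
    simp [Phi]
  · have hd : 0 < dist x y := dist_pos.2 hxy
    have hl : Real.log (dist x y) ≤ Real.log 2 := Real.log_le_log hd h
    have h2 := log_two_pos
    rw [logKernel_of_ne hxy]
    simp only [Phi, hxy, if_false]
    rw [← EReal.coe_neg, neg_neg, EReal.toENNReal_of_ne_top (EReal.coe_ne_top _),
      EReal.toENNReal_of_ne_top (EReal.coe_ne_top _), EReal.toReal_coe, EReal.toReal_coe]
    rcases le_total 0 (Real.log (dist x y)) with h0 | h0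
    · rw [ENNReal.ofReal_of_nonpos (show -Real.log (dist x y) ≤ 0 by linarith), zero_add,
        ← ENNReal.ofReal_add (by linarith) h0]
      congr 1; ring
    · rw [ENNReal.ofReal_of_nonpos h0, add_zero, ← ENNReal.ofReal_add (by linarith) h2.le]
      congr 1; ring

theorem neg_kernel_le {n : ℕ} {x y : E n} (h : dist x y ≤ 2) :
    (-logKernel x y).toENNReal ≤ ENNReal.ofReal (Real.log 2) := by
  by_cases hxy : x = y
  · subst hxy
    rw [logKernel_self]
    simp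
  · have hd : 0 < dist x y := dist_pos.2 hxy
    have hl : Real.log (dist x y) ≤ Real.log 2 := Real.log_le_log hd h
    rw [logKernel_of_ne hxy, ← EReal.coe_neg, neg_neg, EReal.toENNReal_of_ne_top (EReal.coe_ne_top _),
      EReal.toReal_coe]
    exact ENNReal.ofReal_le_ofReal hl

theorem measurable_kernel {n : ℕ} : Measurable (fun p : E n × E n => logKernel p.1 p.2) := by
  unfold logKernel
  apply ENNReal.measurable_log.comp
  exact (measurable_fst.edist measurable_snd).inv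

theorem measurable_Phi {n : ℕ} : Measurable (fun p : E n × E n => Phi p.1 p.2) := by
  unfold Phi
  apply Measurable.ite
  · exact measurableSet_eq_fun measurable_fst measurable_snd
  · exact measurable_const
  · apply ENNReal.measurable_ofReal.comp
    apply measurable_const.sub
    apply Real.measurable_log.comp
    exact measurable_fst.dist measurable_snd

theorem ereal_aux {P Q M : ℝ≥0∞} {l : ℝ} (hl : 0 ≤ l) (hM : M ≠ ⊤)
    (e : P + M = Q + ENNReal.ofReal l) : (Q : EReal) - (M : EReal) = (P : EReal) - (l : EReal) := by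
  have hM' : (M : EReal) ≠ ⊤ := by simpa using hM
  by_cases hP : P = ⊤
  · have hQ : Q = ⊤ := by
      rw [hP, top_add] at e
      by_contra hne
      exact (ENNReal.add_ne_top.2 ⟨hne, ENNReal.ofReal_ne_top⟩) e.symm
    rw [hP, hQ, EReal.coe_ennreal_top, EReal.top_sub_coe]
    lift M to NNReal using hM
    exact EReal.top_sub_coe _
  · have hQ : Q ≠ ⊤ := by
      intro hq
      rw [hq, top_add] at e
      exact (ENNReal.add_ne_top.2 ⟨hP, hM⟩) e
    lift P to NNReal using hP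
    lift Q to NNReal using hQ
    lift M to NNReal using hM
    have e2 := congrArg ENNReal.toReal e
    rw [ENNReal.toReal_add (by simp) (by simp), ENNReal.toReal_add (by simp) (by simp),
      ENNReal.toReal_ofReal hl] at e2
    simp only [ENNReal.coe_toReal] at e2
    have h1 : ((Q : ℝ≥0∞) : EReal) = ((Q : ℝ) : EReal) := rfl
    have h2 : ((M : ℝ≥0∞) : EReal) = ((M : ℝ) : EReal) := rfl
    have h3 : ((P : ℝ≥0∞) : EReal) = ((P : ℝ) : EReal) := rfl
    rw [h1, h2, h3, ← EReal.coe_sub, ← EReal.coe_sub]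
    congr 1
    linarith

theorem energy_eq {n : ℕ} (μ : Measure (E n)) [IsProbabilityMeasure μ]
    (h : ∀ᵐ p ∂(μ.prod μ), dist p.1 p.2 ≤ 2) :
    logEnergy μ = ((∫⁻ p, Phi p.1 p.2 ∂(μ.prod μ) : ℝ≥0∞) : EReal) - ((Real.log 2 : ℝ) : EReal) := by
  unfold logEnergy
  set Q := ∫⁻ p, (logKernel p.1 p.2).toENNReal ∂(μ.prod μ) with hQ
  set M := ∫⁻ p, (-logKernel p.1 p.2).toENNReal ∂(μ.prod μ) with hM
  set P := ∫⁻ p, Phi p.1 p.2 ∂(μ.prod μ) with hP
  have mneg : Measurable (fun p : E n × E n => (-logKernel p.1 p.2).toENNReal) :=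
    measurable_kernel.neg.ereal_toENNReal
  have mk : Measurable (fun p : E n × E n => (logKernel p.1 p.2).toENNReal) :=
    measurable_kernel.ereal_toENNReal
  have e1 : P + M = Q + ENNReal.ofReal (Real.log 2) := by
    have c : ENNReal.ofReal (Real.log 2) = ∫⁻ _ : E n × E n, ENNReal.ofReal (Real.log 2) ∂(μ.prod μ) := by
      simp
    rw [hP, hM, hQ, c, ← lintegral_add_right _ mneg, ← lintegral_add_right _ measurable_const]
    apply lintegral_congr_ae
    filter_upwards [h] with p hp using Phi_add hp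
  have e2 : M ≤ ENNReal.ofReal (Real.log 2) := by
    calc M ≤ ∫⁻ _, ENNReal.ofReal (Real.log 2) ∂(μ.prod μ) :=
          lintegral_mono_ae (by filter_upwards [h] with p hp using neg_kernel_le hp)
      _ = _ := by simp
  have hMt : M ≠ ⊤ := (e2.trans_lt ENNReal.ofReal_lt_top).ne
  exact ereal_aux log_two_pos.le hMt e1

theorem two_mul_ofReal (a : ℝ) : 2 * ENNReal.ofReal a = ENNReal.ofReal (2 * a) := by
  rw [ENNReal.ofReal_mul (by norm_num)]
  norm_num

theorem Lam_le_Phi {n : ℕ} {x y : E n} (hx : ‖x‖ ≤ 1) (hy : ‖y‖ ≤ 1) :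
    Lam (‖x - y‖ ^ 2 / 4) ≤ 2 * Phi x y := by
  by_cases hxy : x = y
  · simp [Phi, hxy]
  · have hd : 0 < ‖x - y‖ := norm_pos_iff.2 (sub_ne_zero.2 hxy)
    have hs := norm_sub_sq_le hx hy
    rw [lam_eq (by positivity) hs]
    simp only [Phi, hxy, if_false]
    rw [two_mul_ofReal]
    apply ENNReal.ofReal_le_ofReal
    rw [Real.log_div (by positivity) (by norm_num), Real.log_pow,
      show (4 : ℝ) = 2 ^ 2 by norm_num, Real.log_pow, dist_eq_norm]
    push_cast
    linarith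

theorem LE_le_Phi {n : ℕ} (μ : Measure (E n)) [IsProbabilityMeasure μ]
    (hμ : ∀ᵐ x ∂μ, ‖x‖ ≤ 1) : LE μ μ ≤ 2 * ∫⁻ p, Phi p.1 p.2 ∂(μ.prod μ) := by
  rw [← lintegral_const_mul _ measurable_Phi, lintegral_prod _ (measurable_Phi.const_mul _).aemeasurable]
  unfold LE
  apply lintegral_mono_ae
  filter_upwards [hμ] with x hx
  apply lintegral_mono_ae
  filter_upwards [hμ] with y hy
  exact Lam_le_Phi hx hy

theorem energy_ball_ge {n : ℕ} {γ : ℝ} [Nontrivial (E n)]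
    (h1 : ∀ x : E n, ‖x‖ ≤ 1 → ENNReal.ofReal γ ≤ ∫⁻ y, Lam (‖x - y‖ ^ 2 / 4) ∂(sig (E n)))
    (h2 : ∀ x : E n, ‖x‖ = 1 → ∫⁻ y, Lam (‖x - y‖ ^ 2 / 4) ∂(sig (E n)) = ENNReal.ofReal γ)
    (hγ : 0 ≤ γ) (μ : Measure (E n)) [IsProbabilityMeasure μ] (hμ : μ (closedBall 0 1)ᶜ = 0) :
    ((γ / 2 - Real.log 2 : ℝ) : EReal) ≤ logEnergy μ := by
  have hb : ∀ᵐ x ∂μ, ‖x‖ ≤ 1 := by
    rw [ae_iff]
    convert hμ using 2
    ext x
    simp
  have hd : ∀ᵐ p ∂(μ.prod μ), dist p.1 p.2 ≤ 2 := by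
    have ha : ∀ᵐ p ∂(μ.prod μ), ‖p.1‖ ≤ 1 := Measure.quasiMeasurePreserving_fst.ae hb
    have hb' : ∀ᵐ p ∂(μ.prod μ), ‖p.2‖ ≤ 1 := Measure.quasiMeasurePreserving_snd.ae hb
    filter_upwards [ha, hb'] with p h1 h2
    rw [dist_eq_norm]
    have := norm_sub_le p.1 p.2
    linarith
  rw [energy_eq μ hd, EReal.coe_sub]
  have h3 := (LE_ge ENNReal.ofReal_ne_top h1 h2 μ hb).trans (LE_le_Phi μ hb)
  have h4 : ENNReal.ofReal (γ / 2) ≤ ∫⁻ p, Phi p.1 p.2 ∂(μ.prod μ) := by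
    rw [show ENNReal.ofReal γ = 2 * ENNReal.ofReal (γ / 2) by
      rw [two_mul_ofReal]
      congr 1; ring] at h3
    exact (ENNReal.mul_le_mul_iff_right (by norm_num) (by norm_num)).1 h3
  apply EReal.sub_le_sub _ le_rfl
  have h5 : ((γ / 2 : ℝ) : EReal) = ((ENNReal.ofReal (γ / 2) : ℝ≥0∞) : EReal) := by
    rw [EReal.coe_ennreal_ofReal, max_eq_left (by linarith)]
  rw [h5]
  exact_mod_cast h4

theorem cap_lt {n : ℕ} {γ : ℝ} [Nontrivial (E n)]
    (h1 : ∀ x : E n, ‖x‖ ≤ 1 → ENNReal.ofReal γ ≤ ∫⁻ y, Lam (‖x - y‖ ^ 2 / 4) ∂(sig (E n)))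
    (h2 : ∀ x : E n, ‖x‖ = 1 → ∫⁻ y, Lam (‖x - y‖ ^ 2 / 4) ∂(sig (E n)) = ENNReal.ofReal γ)
    (hγ : 0 ≤ γ) {K : Set (E n)} (hK : ∀ x ∈ K, ∀ y ∈ K, dist x y ≤ 2) (ν : Measure (E n))
    [IsProbabilityMeasure ν] (hν : ν Kᶜ = 0)
    (hlt : ∫⁻ p, Phi p.1 p.2 ∂(ν.prod ν) < ENNReal.ofReal (γ / 2)) :
    logCap (closedBall (0 : E n) 1) < logCap K := by
  unfold logCap
  rw [EReal.exp_lt_exp_iff, EReal.neg_lt_neg_iff]
  have hd : ∀ᵐ p ∂(ν.prod ν), dist p.1 p.2 ≤ 2 := by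
    have hb : ∀ᵐ x ∂ν, x ∈ K := by
      rw [ae_iff]; exact hν
    have ha : ∀ᵐ p ∂(ν.prod ν), p.1 ∈ K := Measure.quasiMeasurePreserving_fst.ae hb
    have hb' : ∀ᵐ p ∂(ν.prod ν), p.2 ∈ K := Measure.quasiMeasurePreserving_snd.ae hb
    filter_upwards [ha, hb'] with p h1 h2
    exact hK _ h1 _ h2
  calc ⨅ (μ : ProbabilityMeasure (E n)) (_ : (μ : Measure (E n)) Kᶜ = 0), logEnergy (μ : Measure (E n))
      ≤ logEnergy ν := iInf₂_le (⟨ν, inferInstance⟩ : ProbabilityMeasure (E n)) hν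
    _ < ((γ / 2 - Real.log 2 : ℝ) : EReal) := by
        rw [energy_eq ν hd, EReal.coe_sub]
        have h5 : ((γ / 2 : ℝ) : EReal) = ((ENNReal.ofReal (γ / 2) : ℝ≥0∞) : EReal) := by
          rw [EReal.coe_ennreal_ofReal, max_eq_left (by linarith)]
        rw [h5]
        apply EReal.sub_lt_sub_of_lt_of_le _ le_rfl
        · simp
        · simp
        · exact_mod_cast hlt
    _ ≤ _ := by
        apply le_iInf₂
        intro μ hμ
        exact energy_ball_ge h1 h2 hγ (μ : Measure (E n)) hμ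

theorem cap_lt_three {K : Set (E 3)} (hK : ∀ x ∈ K, ∀ y ∈ K, dist x y ≤ 2) (ν : Measure (E 3))
    [IsProbabilityMeasure ν] (hν : ν Kᶜ = 0)
    (hlt : ∫⁻ p, Phi p.1 p.2 ∂(ν.prod ν) < ENNReal.ofReal (1 / 2)) :
    logCap (closedBall (0 : E 3) 1) < logCap K :=
  cap_lt (pot3_ge (by simp)) (pot3_eq (by simp)) zero_le_one hK ν hν hlt

theorem cap_lt_four {K : Set (E 4)} (hK : ∀ x ∈ K, ∀ y ∈ K, dist x y ≤ 2) (ν : Measure (E 4))
    [IsProbabilityMeasure ν] (hν : ν Kᶜ = 0)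
    (hlt : ∫⁻ p, Phi p.1 p.2 ∂(ν.prod ν) < ENNReal.ofReal (Real.log 2 - 1 / 4)) :
    logCap (closedBall (0 : E 4) 1) < logCap K := by
  refine cap_lt (pot4_ge (by simp)) (pot4_eq (by simp)) c4_nonneg hK ν hν ?_
  convert hlt using 2
  ring

end

end Pool.Agent.Helper68.LC
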