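import Mathlib
import Pool.Agent.Helper68.Defs

open MeasureTheory Set ENNReal Metric

namespace Pool.Agent.Helper68.LC

noncomputable section

set_option linter.unusedSectionVars false

/-- uniform probability measure on [-1,1] -/
def uu : Measure ℝ := (2 : ℝ≥0∞)⁻¹ • (volume : Measure ℝ).restrict (Icc (-1) 1)

theorem uu_univ : uu univ = 1 := by
  unfold uu
  rw [Measure.smul_apply, Measure.restrict_apply MeasurableSet.univ, univ_inter, Real.volume_Icc]
  norm_num
  exact ENNReal.inv_mul_cancel (by norm_num) (by norm_num)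

instance : IsProbabilityMeasure uu := ⟨uu_univ⟩

theorem lintegral_uu (f : ℝ → ℝ≥0∞) : ∫⁻ t, f t ∂uu = 2⁻¹ * ∫⁻ t in Icc (-1 : ℝ) 1, f t := by
  unfold uu
  rw [lintegral_smul_measure, smul_eq_mul]

theorem ae_uu : ∀ᵐ t ∂uu, t ∈ Icc (-1 : ℝ) 1 := by
  unfold uu
  apply Measure.ae_smul_measure
  exact ae_restrict_mem measurableSet_Icc

theorem lintegral_uu_neg {f : ℝ → ℝ≥0∞} (hf : Measurable f) : ∫⁻ t, f (-t) ∂uu = ∫⁻ t, f t ∂uu := by
  rw [lintegral_uu, lintegral_uu]
  congr 1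
  have h := (Measure.measurePreserving_neg (volume : Measure ℝ)).restrict_preimage
    (measurableSet_Icc (a := (-1 : ℝ)) (b := 1))
  have e : Neg.neg ⁻¹' Icc (-1 : ℝ) 1 = Icc (-1) 1 := by
    ext x; simp only [mem_preimage, mem_Icc]; constructor <;> rintro ⟨h1, h2⟩ <;> constructor <;> linarith
  rw [e] at h
  exact h.lintegral_comp hf

theorem lintegral_uu_real {f : ℝ → ℝ} (hf : IntervalIntegrable f volume (-1) 1)
    (h0 : ∀ t ∈ Icc (-1 : ℝ) 1, 0 ≤ f t) :
    ∫⁻ t, ENNReal.ofReal (f t) ∂uu = ENNReal.ofReal ((∫ t in (-1 : ℝ)..1, f t) / 2) := by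
  rw [lintegral_uu, intervalIntegral.integral_of_le (by norm_num), ← integral_Icc_eq_integral_Ioc,
    div_eq_inv_mul, ENNReal.ofReal_mul (by norm_num), ofReal_integral_eq_lintegral_ofReal]
  · congr 1
    rw [ENNReal.ofReal_inv_of_pos (by norm_num)]
    norm_num
  · exact (intervalIntegrable_iff_integrableOn_Icc_of_le (by norm_num)).1 hf
  · filter_upwards [ae_restrict_mem measurableSet_Icc] with t ht using h0 t ht

theorem lintegral_uu_sq : ∫⁻ t, ENNReal.ofReal (t ^ 2) ∂uu = ENNReal.ofReal (1 / 3) := by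
  rw [lintegral_uu_real]
  · rw [integral_pow]; norm_num
  · apply Continuous.intervalIntegrable; fun_prop
  · intro t _; positivity

/-! self energy of a segment -/

theorem integral_mul_log : ∫ v in (0 : ℝ)..2, v * Real.log v = 2 * Real.log 2 - 1 := by
  have h : ∫ v in (0 : ℝ)..2, v * Real.log v
      = ((2 : ℝ) / 2 * (2 * Real.log 2) - 2 ^ 2 / 4) - ((0 : ℝ) / 2 * (0 * Real.log 0) - 0 ^ 2 / 4) := by
    apply intervalIntegral.integral_eq_sub_of_hasDerivAt_of_le
      (f := fun v => v / 2 * (v * Real.log v) - v ^ 2 / 4) (by norm_num)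
    · apply Continuous.continuousOn
      have := Real.continuous_mul_log
      fun_prop
    · intro v hv
      have hv0 : v ≠ 0 := hv.1.ne'
      have d1 := Real.hasDerivAt_mul_log hv0
      have d2 := ((hasDerivAt_id v).div_const 2).mul d1
      have d3 := ((hasDerivAt_id v).pow 2).div_const 4
      have e : v * Real.log v = 1 / 2 * (v * Real.log v) + id v / 2 * (Real.log v + 1)
        - (2 : ℕ) * id v ^ (2 - 1) * 1 / 4 := by
        simp
        ring
      rw [e]
      exact d2.sub d3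
    · apply Continuous.intervalIntegrable
      exact Real.continuous_mul_log
  rw [h]
  ring

theorem self_inner (s : ℝ) : ∫ t in (-1 : ℝ)..1, (Real.log 2 - Real.log (s - t))
    = 2 * Real.log 2 + 2 - ((s + 1) * Real.log (s + 1) + (1 - s) * Real.log (1 - s)) := by
  have hi : IntervalIntegrable (fun t => Real.log (s - t)) volume (-1) 1 := by
    have := (intervalIntegral.intervalIntegrable_log' (a := s - (-1)) (b := s - 1)).comp_sub_left s
    simpa using this
  rw [intervalIntegral.integral_sub intervalIntegrable_const hi,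
    intervalIntegral.integral_comp_sub_left (fun v => Real.log v) s, integral_log,
    intervalIntegral.integral_const]
  rw [show s - 1 = -(1 - s) by ring, Real.log_neg_eq_log]
  simp
  ring

theorem self_total : ∫⁻ s, (∫⁻ t, ENNReal.ofReal (Real.log 2 - Real.log (s - t)) ∂uu) ∂uu
    = ENNReal.ofReal (3 / 2) := by
  have hlog : ∀ s ∈ Icc (-1 : ℝ) 1, ∀ t ∈ Icc (-1 : ℝ) 1, 0 ≤ Real.log 2 - Real.log (s - t) := by
    intro s hs t ht
    have : Real.log (s - t) ≤ Real.log 2 := by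
      rw [← Real.log_abs]
      by_cases h : s - t = 0
      · rw [h]; simp; exact log_two_pos.le
      · apply Real.log_le_log (abs_pos.2 h)
        rw [abs_le]; constructor <;> linarith [hs.1, hs.2, ht.1, ht.2]
    linarith
  have h1 : ∀ s ∈ Icc (-1 : ℝ) 1, ∫⁻ t, ENNReal.ofReal (Real.log 2 - Real.log (s - t)) ∂uu
      = ENNReal.ofReal ((2 * Real.log 2 + 2 - ((s + 1) * Real.log (s + 1) + (1 - s) * Real.log (1 - s))) / 2) := by
    intro s hs
    rw [lintegral_uu_real, self_inner]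
    · have hi : IntervalIntegrable (fun t => Real.log (s - t)) volume (-1) 1 := by
        have := (intervalIntegral.intervalIntegrable_log' (a := s - (-1)) (b := s - 1)).comp_sub_left s
        simpa using this
      exact intervalIntegrable_const.sub hi
    · exact hlog s hs
  have c1 : Continuous (fun s : ℝ => (s + 1) * Real.log (s + 1)) :=
    Real.continuous_mul_log.comp (continuous_id.add continuous_const)
  have c2 : Continuous (fun s : ℝ => (1 - s) * Real.log (1 - s)) :=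
    Real.continuous_mul_log.comp (continuous_const.sub continuous_id)
  rw [lintegral_congr_ae (ae_uu.mono fun s hs => h1 s hs), lintegral_uu_real]
  · congr 1
    have i1 : ∫ s in (-1 : ℝ)..1, (s + 1) * Real.log (s + 1) = 2 * Real.log 2 - 1 := by
      rw [intervalIntegral.integral_comp_add_right (fun v => v * Real.log v) 1, ← integral_mul_log]
      norm_num
    have i2 : ∫ s in (-1 : ℝ)..1, (1 - s) * Real.log (1 - s) = 2 * Real.log 2 - 1 := by
      rw [intervalIntegral.integral_comp_sub_left (fun v => v * Real.log v) 1, ← integral_mul_log]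
      norm_num
    have c3 : Continuous (fun s : ℝ => (s + 1) * Real.log (s + 1) + (1 - s) * Real.log (1 - s)) :=
      c1.add c2
    rw [intervalIntegral.integral_div, intervalIntegral.integral_sub intervalIntegrable_const
      (c3.intervalIntegrable _ _), intervalIntegral.integral_add (c1.intervalIntegrable _ _)
      (c2.intervalIntegrable _ _), i1, i2, intervalIntegral.integral_const]
    simp
    ring
  · apply Continuous.intervalIntegrable
    fun_prop
  · intro s hs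
    have a1 : (s + 1) * Real.log (s + 1) ≤ (s + 1) * Real.log 2 := by
      rcases hs.1.eq_or_lt with h | h
      · rw [← h]; simp
      · apply mul_le_mul_of_nonneg_left _ (by linarith)
        apply Real.log_le_log (by linarith) (by linarith [hs.2])
    have a2 : (1 - s) * Real.log (1 - s) ≤ (1 - s) * Real.log 2 := by
      rcases hs.2.eq_or_lt with h | h
      · rw [h]; simp
      · apply mul_le_mul_of_nonneg_left _ (by linarith)
        apply Real.log_le_log (by linarith) (by linarith [hs.1])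
    linarith

theorem ae_uu_ne (s : ℝ) : ∀ᵐ t ∂uu, t ≠ s := by
  unfold uu
  apply Measure.ae_smul_measure
  apply ae_restrict_of_ae
  rw [ae_iff]
  simp

theorem self_bound {n : ℕ} (x b : E n) (hb : b ≠ 0) (hb1 : ‖b‖ ≤ 1) :
    ∫⁻ s, (∫⁻ t, Phi (x + s • b) (x + t • b) ∂uu) ∂uu ≤ ENNReal.ofReal (3 / 2 - Real.log ‖b‖) := by
  have hn : 0 < ‖b‖ := norm_pos_iff.2 hb
  have hl : Real.log ‖b‖ ≤ 0 := Real.log_nonpos hn.le hb1
  have key : ∀ s ∈ Icc (-1 : ℝ) 1, ∫⁻ t, Phi (x + s • b) (x + t • b) ∂uu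
      = ∫⁻ t, ENNReal.ofReal (Real.log 2 - Real.log (s - t)) ∂uu + ENNReal.ofReal (-Real.log ‖b‖) := by
    intro s hs
    have e : ENNReal.ofReal (-Real.log ‖b‖) = ∫⁻ _, ENNReal.ofReal (-Real.log ‖b‖) ∂uu := by simp
    rw [e, ← lintegral_add_right _ measurable_const]
    apply lintegral_congr_ae
    filter_upwards [ae_uu, ae_uu_ne s] with t ht hts
    have hne : x + s • b ≠ x + t • b := by
      intro h
      have h2 : (s - t) • b = 0 := by
        rw [sub_smul]; exact sub_eq_zero.2 (add_left_cancel h)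
      rcases smul_eq_zero.1 h2 with h3 | h3
      · exact hts (by linarith)
      · exact hb h3
    have hst : s - t ≠ 0 := fun h => hts (by linarith)
    have hd : dist (x + s • b) (x + t • b) = |s - t| * ‖b‖ := by
      rw [dist_eq_norm, show x + s • b - (x + t • b) = (s - t) • b by rw [sub_smul]; abel, norm_smul,
        Real.norm_eq_abs]
    have hlog : Real.log (s - t) ≤ Real.log 2 := by
      rw [← Real.log_abs]
      apply Real.log_le_log (abs_pos.2 hst)
      rw [abs_le]; constructor <;> linarith [hs.1, hs.2, ht.1, ht.2]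
    simp only [Phi, hne, if_false]
    rw [← ENNReal.ofReal_add (by linarith) (by linarith), hd,
      Real.log_mul (abs_ne_zero.2 hst) hn.ne', Real.log_abs]
    congr 1
    ring
  rw [lintegral_congr_ae (ae_uu.mono fun s hs => key s hs)]
  have m1 : Measurable (fun s : ℝ => ∫⁻ t, ENNReal.ofReal (Real.log 2 - Real.log (s - t)) ∂uu) := by
    apply Measurable.lintegral_prod_right' (f := fun p : ℝ × ℝ =>
      ENNReal.ofReal (Real.log 2 - Real.log (p.1 - p.2)))
    apply ENNReal.measurable_ofReal.comp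
    apply measurable_const.sub
    exact Real.measurable_log.comp (measurable_fst.sub measurable_snd)
  rw [lintegral_add_left m1, self_total]
  simp only [lintegral_const, measure_univ, mul_one]
  rw [← ENNReal.ofReal_add (by norm_num) (by linarith)]
  apply ENNReal.ofReal_le_ofReal
  linarith

/-! mutual energy of two segments -/

theorem log_one_sub_ge {τ : ℝ} (h0 : 0 ≤ τ) (h1 : τ ≤ 1 / 2) : -τ - τ ^ 2 ≤ Real.log (1 - τ) := by
  have hm : MonotoneOn (fun τ : ℝ => Real.log (1 - τ) + τ + τ ^ 2) (Icc 0 (1 / 2)) := by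
    apply monotoneOn_of_deriv_nonneg (convex_Icc _ _)
    · apply ContinuousOn.add
      · apply ContinuousOn.add _ continuousOn_id
        apply ContinuousOn.log (by fun_prop)
        intro x hx
        linarith [hx.2]
      · fun_prop
    · intro x hx
      rw [interior_Icc] at hx
      have : 1 - x ≠ 0 := by linarith [hx.2]
      fun_prop (disch := assumption)
    · intro x hx
      rw [interior_Icc] at hx
      have hx1 : 0 < 1 - x := by linarith [hx.2]
      have d1 : HasDerivAt (fun τ : ℝ => Real.log (1 - τ) + τ + τ ^ 2)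
          ((0 - 1) / (1 - x) + 1 + (2 : ℕ) * x ^ (2 - 1) * 1) x :=
        ((((hasDerivAt_const x (1 : ℝ)).sub (hasDerivAt_id x)).log hx1.ne').add (hasDerivAt_id x)).add
          ((hasDerivAt_id x).pow 2)
      rw [d1.deriv]
      have e : (0 - 1) / (1 - x) + 1 + ((2 : ℕ) : ℝ) * x ^ (2 - 1) * 1 = x * (1 - 2 * x) / (1 - x) := by
        field_simp
        push_cast
        ring
      rw [e]
      apply div_nonneg _ hx1.le
      apply mul_nonneg hx.1.le
      linarith [hx.2]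
  have := hm (show (0 : ℝ) ∈ Icc 0 (1 / 2) by simp) (show τ ∈ Icc 0 (1 / 2) from ⟨h0, h1⟩) h0
  simp at this
  linarith

theorem pair_log {n : ℕ} (d w : E n) {T : ℝ} (hd : d ≠ 0) (hw : ‖w‖ ^ 2 ≤ T * ‖d‖ ^ 2) (hT : T ≤ 1 / 2) :
    Real.log (‖d‖ ^ 2) - (1 + T) * ‖w‖ ^ 2 / ‖d‖ ^ 2 ≤ Real.log ‖d + w‖ + Real.log ‖d - w‖ := by
  have hD : 0 < ‖d‖ ^ 2 := by
    have := norm_pos_iff.2 hd
    positivity
  have hw0 : 0 ≤ ‖w‖ ^ 2 := by positivity
  have hlt : ‖w‖ ^ 2 ≤ 1 / 2 * ‖d‖ ^ 2 := hw.trans (by nlinarith)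
  have hpos : 0 < ‖d‖ ^ 2 - ‖w‖ ^ 2 := by linarith
  have e1 := norm_add_sq_real d w
  have e2 := norm_sub_sq_real d w
  have e3 := real_inner_mul_inner_self_le d w
  have h1 : 0 ≤ ‖d + w‖ := norm_nonneg _
  have h2 : 0 ≤ ‖d - w‖ := norm_nonneg _
  have hprod : (‖d‖ ^ 2 - ‖w‖ ^ 2) ^ 2 ≤ (‖d + w‖ * ‖d - w‖) ^ 2 := by
    rw [mul_pow, e1, e2]
    rw [real_inner_self_eq_norm_sq, real_inner_self_eq_norm_sq] at e3
    nlinarith
  have hprod2 : ‖d‖ ^ 2 - ‖w‖ ^ 2 ≤ ‖d + w‖ * ‖d - w‖ :=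
    (pow_le_pow_iff_left₀ hpos.le (mul_nonneg h1 h2) two_ne_zero).1 hprod
  have hne : 0 < ‖d + w‖ * ‖d - w‖ := hpos.trans_le hprod2
  have hn1 : ‖d + w‖ ≠ 0 := fun h => by rw [h, zero_mul] at hne; exact lt_irrefl _ hne
  have hn2 : ‖d - w‖ ≠ 0 := fun h => by rw [h, mul_zero] at hne; exact lt_irrefl _ hne
  rw [← Real.log_mul hn1 hn2]
  have hτ0 : 0 ≤ ‖w‖ ^ 2 / ‖d‖ ^ 2 := by positivity
  have hτ1 : ‖w‖ ^ 2 / ‖d‖ ^ 2 ≤ T := by rw [div_le_iff₀ hD]; exact hw
  have h3 := log_one_sub_ge hτ0 (hτ1.trans hT)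
  calc Real.log (‖d‖ ^ 2) - (1 + T) * ‖w‖ ^ 2 / ‖d‖ ^ 2
      ≤ Real.log (‖d‖ ^ 2) + Real.log (1 - ‖w‖ ^ 2 / ‖d‖ ^ 2) := by
        have : (1 + T) * ‖w‖ ^ 2 / ‖d‖ ^ 2 = (1 + T) * (‖w‖ ^ 2 / ‖d‖ ^ 2) := by ring
        rw [this]
        nlinarith
    _ = Real.log (‖d‖ ^ 2 - ‖w‖ ^ 2) := by
        rw [← Real.log_mul hD.ne' (by linarith)]
        congr 1
        field_simp
    _ ≤ _ := Real.log_le_log hpos hprod2

theorem Phi_of_ne {n : ℕ} {x y : E n} (h : 0 < ‖x - y‖) :
    Phi x y = ENNReal.ofReal (Real.log 2 - Real.log ‖x - y‖) := by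
  have hne : x ≠ y := by
    intro e; rw [e, sub_self, norm_zero] at h; exact lt_irrefl _ h
  simp only [Phi, hne, if_false]
  rw [dist_eq_norm]

/-- two symmetric positions -/
theorem Phi_pair {n : ℕ} (x y w : E n) {T : ℝ} (hd : x ≠ y) (hw : ‖w‖ ^ 2 ≤ T * ‖x - y‖ ^ 2)
    (hT : T ≤ 1 / 2) (x1 y1 x2 y2 : E n) (h1 : x1 - y1 = x - y + w) (h2 : x2 - y2 = x - y - w)
    (hd1 : dist x1 y1 ≤ 2) (hd2 : dist x2 y2 ≤ 2) :
    Phi x1 y1 + Phi x2 y2 ≤ ENNReal.ofReal (2 * Real.log 2 - Real.log (‖x - y‖ ^ 2)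
      + (1 + T) * ‖w‖ ^ 2 / ‖x - y‖ ^ 2) := by
  have hd' : x - y ≠ 0 := sub_ne_zero.2 hd
  have hD : 0 < ‖x - y‖ ^ 2 := by
    have := norm_pos_iff.2 hd'
    positivity
  have hw0 : 0 ≤ ‖w‖ ^ 2 := by positivity
  have hlt : ‖w‖ ^ 2 ≤ 1 / 2 * ‖x - y‖ ^ 2 := hw.trans (by nlinarith)
  have hwn : ‖w‖ < ‖x - y‖ := by
    have : ‖w‖ ^ 2 < ‖x - y‖ ^ 2 := by linarith
    exact (pow_lt_pow_iff_left₀ (norm_nonneg _) (norm_nonneg _) two_ne_zero).1 this
  have p1 : 0 < ‖x1 - y1‖ := by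
    rw [h1, norm_pos_iff]
    intro h
    have : ‖x - y‖ = ‖w‖ := by rw [eq_neg_of_add_eq_zero_left h, norm_neg]
    linarith
  have p2 : 0 < ‖x2 - y2‖ := by
    rw [h2, norm_pos_iff]
    intro h
    have : ‖x - y‖ = ‖w‖ := by rw [sub_eq_zero.1 h]
    linarith
  rw [Phi_of_ne p1, Phi_of_ne p2]
  rw [dist_eq_norm] at hd1 hd2
  have l1 := Real.log_le_log p1 hd1
  have l2 := Real.log_le_log p2 hd2
  rw [← ENNReal.ofReal_add (by linarith) (by linarith)]
  apply ENNReal.ofReal_le_ofReal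
  have := pair_log (x - y) w hd' hw hT
  rw [h1, h2]
  linarith

theorem cross_bound {n : ℕ} (x y b c : E n) {T : ℝ} (hxy : x ≠ y)
    (hTb : 2 * (‖b‖ ^ 2 + ‖c‖ ^ 2) ≤ T * ‖x - y‖ ^ 2) (hT : T ≤ 1 / 2) (hT0 : 0 ≤ T)
    (hdist : ∀ s ∈ Icc (-1 : ℝ) 1, ∀ t ∈ Icc (-1 : ℝ) 1, dist (x + s • b) (y + t • c) ≤ 2) :
    ∫⁻ s, (∫⁻ t, Phi (x + s • b) (y + t • c) ∂uu) ∂uu ≤
      ENNReal.ofReal (Real.log 2 - Real.log (‖x - y‖ ^ 2) / 2
        + (1 + T) * (‖b‖ ^ 2 + ‖c‖ ^ 2) / (6 * ‖x - y‖ ^ 2)) := by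
  set F : ℝ → ℝ → ℝ≥0∞ := fun s t => Phi (x + s • b) (y + t • c) with hF
  have mF : Measurable (fun p : ℝ × ℝ => F p.1 p.2) := by
    have hg : Measurable (fun p : ℝ × ℝ => (x + p.1 • b, y + p.2 • c)) := by fun_prop
    exact measurable_Phi.comp hg
  have mF1 : ∀ s, Measurable (F s) := fun s => mF.comp (measurable_const.prodMk measurable_id)
  have mI : Measurable (fun s => ∫⁻ t, F s t ∂uu) := mF.lintegral_prod_right'
  set J := ∫⁻ s, (∫⁻ t, F s t ∂uu) ∂uu with hJ
  have a1 : ∫⁻ s, (∫⁻ t, F (-s) t ∂uu) ∂uu = J := lintegral_uu_neg mI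
  have a2 : ∫⁻ s, (∫⁻ t, F s (-t) ∂uu) ∂uu = J := by
    rw [hJ]
    exact lintegral_congr fun s => lintegral_uu_neg (mF1 s)
  have a3 : ∫⁻ s, (∫⁻ t, F (-s) (-t) ∂uu) ∂uu = J := by
    rw [← a1]
    exact lintegral_congr fun s => lintegral_uu_neg (mF1 (-s))
  have m2 : Measurable (fun p : ℝ × ℝ => F (-p.1) (-p.2)) :=
    mF.comp (f := fun p : ℝ × ℝ => (-p.1, -p.2)) (by fun_prop)
  have m3 : Measurable (fun p : ℝ × ℝ => F p.1 (-p.2)) :=
    mF.comp (f := fun p : ℝ × ℝ => (p.1, -p.2)) (by fun_prop)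
  have m4 : Measurable (fun p : ℝ × ℝ => F (-p.1) p.2) :=
    mF.comp (f := fun p : ℝ × ℝ => (-p.1, p.2)) (by fun_prop)
  have hsum : 4 * J = ∫⁻ s, (∫⁻ t, ((F s t + F (-s) (-t)) + (F s (-t) + F (-s) t)) ∂uu) ∂uu := by
    have e : ∀ s, ∫⁻ t, ((F s t + F (-s) (-t)) + (F s (-t) + F (-s) t)) ∂uu
        = (∫⁻ t, F s t ∂uu + ∫⁻ t, F (-s) (-t) ∂uu) + (∫⁻ t, F s (-t) ∂uu + ∫⁻ t, F (-s) t ∂uu) := by
      intro s
      have n1 : Measurable (fun t => F (-s) (-t)) := (mF1 (-s)).comp measurable_neg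
      have n2 : Measurable (fun t => F s (-t)) := (mF1 s).comp measurable_neg
      have n3 : Measurable (fun t => F s t + F (-s) (-t)) := (mF1 s).add n1
      rw [lintegral_add_left n3, lintegral_add_left (mF1 s), lintegral_add_left n2]
    simp_rw [e]
    have q2 : Measurable (fun s => ∫⁻ t, F (-s) (-t) ∂uu) := m2.lintegral_prod_right'
    have q3 : Measurable (fun s => ∫⁻ t, F s (-t) ∂uu) := m3.lintegral_prod_right'
    have q4 : Measurable (fun s => ∫⁻ t, F s t ∂uu + ∫⁻ t, F (-s) (-t) ∂uu) := mI.add q2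
    rw [lintegral_add_left q4, lintegral_add_left mI, lintegral_add_left q3, a1, a2, a3]
    ring
  have hd' : x - y ≠ 0 := sub_ne_zero.2 hxy
  have hD : 0 < ‖x - y‖ ^ 2 := by
    have := norm_pos_iff.2 hd'
    positivity
  set D := ‖x - y‖ ^ 2 with hDdef
  set A := 2 * Real.log 2 - Real.log D with hA
  set B := (1 + T) / D with hB
  have hB0 : 0 ≤ B := by positivity
  have hA0 : 0 ≤ A := by
    have h0 := hdist 0 (by simp) 0 (by simp)
    rw [zero_smul, zero_smul, add_zero, add_zero, dist_eq_norm] at h0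
    have h1 : D ≤ 2 ^ 2 := by
      rw [hDdef]; exact pow_le_pow_left₀ (norm_nonneg _) h0 2
    have h2 := Real.log_le_log hD h1
    have h3 : Real.log ((2 : ℝ) ^ 2) = 2 * Real.log 2 := by rw [Real.log_pow]; push_cast; ring
    linarith
  have hβ : 0 ≤ ‖b‖ ^ 2 := by positivity
  have hγ : 0 ≤ ‖c‖ ^ 2 := by positivity
  have point : ∀ s ∈ Icc (-1 : ℝ) 1, ∀ t ∈ Icc (-1 : ℝ) 1,
      (F s t + F (-s) (-t)) + (F s (-t) + F (-s) t) ≤
        ENNReal.ofReal (2 * A) + (ENNReal.ofReal (2 * B * ‖b‖ ^ 2) * ENNReal.ofReal (s ^ 2)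
          + ENNReal.ofReal (2 * B * ‖c‖ ^ 2) * ENNReal.ofReal (t ^ 2)) := by
    intro s hs t ht
    have hs' : -s ∈ Icc (-1 : ℝ) 1 := ⟨by linarith [hs.2], by linarith [hs.1]⟩
    have ht' : -t ∈ Icc (-1 : ℝ) 1 := ⟨by linarith [ht.2], by linarith [ht.1]⟩
    have s2 : s ^ 2 ≤ 1 := by nlinarith [hs.1, hs.2]
    have t2 : t ^ 2 ≤ 1 := by nlinarith [ht.1, ht.2]
    have par := parallelogram_law_with_norm ℝ (s • b) (t • c)
    have nb : ‖s • b‖ ^ 2 = s ^ 2 * ‖b‖ ^ 2 := by rw [norm_smul, mul_pow, Real.norm_eq_abs, sq_abs]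
    have nc : ‖t • c‖ ^ 2 = t ^ 2 * ‖c‖ ^ 2 := by rw [norm_smul, mul_pow, Real.norm_eq_abs, sq_abs]
    have nonneg1 : 0 ≤ ‖s • b - t • c‖ ^ 2 := by positivity
    have nonneg2 : 0 ≤ ‖s • b + t • c‖ ^ 2 := by positivity
    have hsum2 : ‖s • b + t • c‖ ^ 2 + ‖s • b - t • c‖ ^ 2 = 2 * (s ^ 2 * ‖b‖ ^ 2 + t ^ 2 * ‖c‖ ^ 2) := by
      rw [← nb, ← nc]; linarith
    have hle : 2 * (s ^ 2 * ‖b‖ ^ 2 + t ^ 2 * ‖c‖ ^ 2) ≤ T * D := by
      have := mul_le_mul_of_nonneg_right s2 hβ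
      have := mul_le_mul_of_nonneg_right t2 hγ
      linarith
    have P1 := Phi_pair x y (s • b - t • c) (T := T) hxy (by linarith) hT
      (x + s • b) (y + t • c) (x + (-s) • b) (y + (-t) • c) (by abel) (by rw [neg_smul, neg_smul]; abel)
      (hdist s hs t ht) (hdist (-s) hs' (-t) ht')
    have P2 := Phi_pair x y (s • b + t • c) (T := T) hxy (by linarith) hT
      (x + s • b) (y + (-t) • c) (x + (-s) • b) (y + t • c) (by rw [neg_smul]; abel)
      (by rw [neg_smul]; abel)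
      (hdist s hs (-t) ht') (hdist (-s) hs' t ht)
    have P3 := add_le_add P1 P2
    refine P3.trans ?_
    have r1 : 0 ≤ 2 * Real.log 2 - Real.log D + (1 + T) * ‖s • b - t • c‖ ^ 2 / D := by positivity
    have r2 : 0 ≤ 2 * Real.log 2 - Real.log D + (1 + T) * ‖s • b + t • c‖ ^ 2 / D := by positivity
    rw [← ENNReal.ofReal_add r1 r2, ← ENNReal.ofReal_mul (by positivity),
      ← ENNReal.ofReal_mul (by positivity), ← ENNReal.ofReal_add (by positivity) (by positivity),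
      ← ENNReal.ofReal_add (by positivity) (by positivity)]
    apply ENNReal.ofReal_le_ofReal
    apply le_of_eq
    have e1 : (1 + T) * ‖s • b - t • c‖ ^ 2 / D = B * ‖s • b - t • c‖ ^ 2 := by rw [hB]; ring
    have e2 : (1 + T) * ‖s • b + t • c‖ ^ 2 / D = B * ‖s • b + t • c‖ ^ 2 := by rw [hB]; ring
    rw [e1, e2]
    linear_combination B * hsum2
  have fin : 4 * J ≤ ENNReal.ofReal (2 * A) + (ENNReal.ofReal (2 * B * ‖b‖ ^ 2) * ENNReal.ofReal (1 / 3)
          + ENNReal.ofReal (2 * B * ‖c‖ ^ 2) * ENNReal.ofReal (1 / 3)) := by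
    rw [hsum]
    calc ∫⁻ s, (∫⁻ t, ((F s t + F (-s) (-t)) + (F s (-t) + F (-s) t)) ∂uu) ∂uu
        ≤ ∫⁻ s, (∫⁻ t, (ENNReal.ofReal (2 * A) + (ENNReal.ofReal (2 * B * ‖b‖ ^ 2) * ENNReal.ofReal (s ^ 2)
          + ENNReal.ofReal (2 * B * ‖c‖ ^ 2) * ENNReal.ofReal (t ^ 2))) ∂uu) ∂uu := by
          apply lintegral_mono_ae
          filter_upwards [ae_uu] with s hs
          apply lintegral_mono_ae
          filter_upwards [ae_uu] with t ht
          exact point s hs t ht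
      _ = _ := by
          have k1 : ∀ s : ℝ, ∫⁻ t, (ENNReal.ofReal (2 * A) + (ENNReal.ofReal (2 * B * ‖b‖ ^ 2) * ENNReal.ofReal (s ^ 2)
            + ENNReal.ofReal (2 * B * ‖c‖ ^ 2) * ENNReal.ofReal (t ^ 2))) ∂uu
            = ENNReal.ofReal (2 * A) + (ENNReal.ofReal (2 * B * ‖b‖ ^ 2) * ENNReal.ofReal (s ^ 2)
            + ENNReal.ofReal (2 * B * ‖c‖ ^ 2) * ENNReal.ofReal (1 / 3)) := by
            intro s
            rw [lintegral_add_left measurable_const, lintegral_add_left measurable_const,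
              lintegral_const_mul (ENNReal.ofReal (2 * B * ‖c‖ ^ 2))
                (f := fun t : ℝ => ENNReal.ofReal (t ^ 2)) (by fun_prop), lintegral_uu_sq]
            simp
          simp_rw [k1]
          rw [lintegral_add_left measurable_const, lintegral_add_right _ measurable_const,
            lintegral_const_mul (ENNReal.ofReal (2 * B * ‖b‖ ^ 2))
                (f := fun t : ℝ => ENNReal.ofReal (t ^ 2)) (by fun_prop), lintegral_uu_sq]
          simp
  have fin2 : 4 * J ≤ 4 * ENNReal.ofReal (Real.log 2 - Real.log D / 2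
        + (1 + T) * (‖b‖ ^ 2 + ‖c‖ ^ 2) / (6 * D)) := by
    refine fin.trans ?_
    rw [← ENNReal.ofReal_mul (by positivity),
      ← ENNReal.ofReal_mul (by positivity), ← ENNReal.ofReal_add (by positivity) (by positivity),
      ← ENNReal.ofReal_add (by positivity) (by positivity)]
    have e4 : ∀ a : ℝ, 4 * ENNReal.ofReal a = ENNReal.ofReal (4 * a) := by
      intro a
      rw [ENNReal.ofReal_mul (by norm_num)]
      norm_num
    rw [e4]
    apply ENNReal.ofReal_le_ofReal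
    apply le_of_eq
    rw [hA, hB]
    field_simp
    ring
  exact (ENNReal.mul_le_mul_iff_right (by norm_num) (by norm_num)).1 fin2

end

end Pool.Agent.Helper68.LC
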