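import Mathlib
import Pool.Agent.Helper68.Seg

open MeasureTheory Set ENNReal Metric

namespace Pool.Agent.Helper68.LC

noncomputable section

set_option linter.unusedSectionVars false

/-! sums over lists -/

theorem lintegral_list_sum {α β : Type*} [MeasurableSpace α] (L : List β) (m : β → Measure α)
    (f : α → ℝ≥0∞) : ∫⁻ a, f a ∂(L.map m).sum = (L.map fun g => ∫⁻ a, f a ∂(m g)).sum := by
  induction L with
  | nil => simp
  | cons g L ih => simp [lintegral_add_measure, ih]

theorem measure_list_sum {α β : Type*} [MeasurableSpace α] (L : List β) (m : β → Measure α)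
    (s : Set α) : (L.map m).sum s = (L.map fun g => m g s).sum := by
  induction L with
  | nil => simp
  | cons g L ih => simp [ih]

theorem ofReal_list_sum {β : Type*} (L : List β) (f : β → ℝ) (hf : ∀ g ∈ L, 0 ≤ f g) :
    (L.map fun g => ENNReal.ofReal (f g)).sum = ENNReal.ofReal ((L.map f).sum) := by
  induction L with
  | nil => simp
  | cons g L ih =>
    simp only [List.map_cons, List.sum_cons]
    rw [ih fun h hh => hf h (List.mem_cons_of_mem _ hh),
      ENNReal.ofReal_add (hf g List.mem_cons_self)]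
    apply List.sum_nonneg
    intro x hx
    obtain ⟨h, hh, rfl⟩ := List.mem_map.1 hx
    exact hf h (List.mem_cons_of_mem _ hh)

theorem list_sum_le {β M : Type*} [AddCommMonoid M] [PartialOrder M] [IsOrderedAddMonoid M]
    (L : List β) (f g : β → M) (h : ∀ b ∈ L, f b ≤ g b) : (L.map f).sum ≤ (L.map g).sum := by
  induction L with
  | nil => simp
  | cons b L ih =>
    simp only [List.map_cons, List.sum_cons]
    exact add_le_add (h b List.mem_cons_self) (ih fun c hc => h c (List.mem_cons_of_mem _ hc))

theorem measurable_fun_list_sum {α β : Type*} [MeasurableSpace α] (L : List β)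
    (f : β → α → ℝ≥0∞) (hf : ∀ g, Measurable (f g)) :
    Measurable (fun a => (L.map fun g => f g a).sum) := by
  induction L with
  | nil => simp
  | cons g L ih =>
    simp only [List.map_cons, List.sum_cons]
    exact (hf g).add ih

theorem lintegral_fun_list_sum {α β : Type*} [MeasurableSpace α] {μ : Measure α} (L : List β)
    (f : β → α → ℝ≥0∞) (hf : ∀ g, Measurable (f g)) :
    ∫⁻ a, (L.map fun g => f g a).sum ∂μ = (L.map fun g => ∫⁻ a, f g a ∂μ).sum := by
  induction L with
  | nil => simp
  | cons g L ih =>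
    simp only [List.map_cons, List.sum_cons]
    rw [lintegral_add_left (hf g), ih]

theorem log_list_prod {β : Type*} (L : List β) (f : β → ℕ) (hf : ∀ g ∈ L, 0 < f g) :
    0 < (L.map f).prod ∧ Real.log ((L.map f).prod : ℕ) = (L.map fun g => Real.log (f g)).sum := by
  induction L with
  | nil => simp
  | cons g L ih =>
    have h1 := ih fun h hh => hf h (List.mem_cons_of_mem _ hh)
    have h2 := hf g List.mem_cons_self
    simp only [List.map_cons, List.prod_cons, List.sum_cons]
    refine ⟨Nat.mul_pos h2 h1.1, ?_⟩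
    rw [Nat.cast_mul, Real.log_mul, h1.2]
    · exact_mod_cast h2.ne'
    · exact_mod_cast h1.1.ne'

/-! measures on segments -/

/-- uniform measure on a segment with centre x and half vector b -/
def segM {n : ℕ} (x b : E n) : Measure (E n) := uu.map (fun s : ℝ => x + s • b)

theorem measurable_seg {n : ℕ} (x b : E n) : Measurable (fun s : ℝ => x + s • b) := by fun_prop

instance {n : ℕ} (x b : E n) : IsProbabilityMeasure (segM x b) :=
  Measure.isProbabilityMeasure_map (measurable_seg x b).aemeasurable

/-- average of segment measures -/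
def avgM {n : ℕ} {β : Type*} (L : List β) (x b : β → E n) : Measure (E n) :=
  ((L.length : ℝ≥0∞))⁻¹ • (L.map fun g => segM (x g) (b g)).sum

theorem avgM_prob {n : ℕ} {β : Type*} (L : List β) (hL : L ≠ []) (x b : β → E n) :
    IsProbabilityMeasure (avgM L x b) := by
  constructor
  unfold avgM
  rw [Measure.smul_apply, measure_list_sum]
  simp only [measure_univ, List.map_const', List.sum_replicate, smul_eq_mul, nsmul_eq_mul, mul_one]
  apply ENNReal.inv_mul_cancel
  · simpa using hL
  · simp

theorem avgM_energy {n : ℕ} {β : Type*} (L : List β) (hL : L ≠ []) (x b : β → E n)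
    (p : β → β → ℝ) (hp0 : ∀ g ∈ L, ∀ h ∈ L, 0 ≤ p g h)
    (hp : ∀ g ∈ L, ∀ h ∈ L, ∫⁻ s, (∫⁻ t, Phi (x g + s • b g) (x h + t • b h) ∂uu) ∂uu
      ≤ ENNReal.ofReal (p g h)) :
    ∫⁻ q, Phi q.1 q.2 ∂((avgM L x b).prod (avgM L x b)) ≤
      ENNReal.ofReal ((L.map fun g => (L.map fun h => p g h).sum).sum / (L.length : ℝ) ^ 2) := by
  have := avgM_prob L hL x b
  rw [lintegral_prod _ measurable_Phi.aemeasurable]
  have mR : ∀ u : E n, Measurable (fun v : E n => Phi u v) := fun u =>
    measurable_Phi.comp (measurable_const.prodMk measurable_id)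
  have e1 : ∀ u : E n, ∫⁻ v, Phi u v ∂(avgM L x b) = ((L.length : ℝ≥0∞))⁻¹ *
      (L.map fun h => ∫⁻ t, Phi u (x h + t • b h) ∂uu).sum := by
    intro u
    unfold avgM
    rw [lintegral_smul_measure, lintegral_list_sum, smul_eq_mul]
    congr 3
    ext h
    unfold segM
    rw [lintegral_map (mR u) (measurable_seg _ _)]
  have mI : ∀ h : β, Measurable (fun u : E n => ∫⁻ t, Phi u (x h + t • b h) ∂uu) := by
    intro h
    apply Measurable.lintegral_prod_right' (f := fun q : E n × ℝ => Phi q.1 (x h + q.2 • b h))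
    have hg : Measurable (fun q : E n × ℝ => (q.1, x h + q.2 • b h)) := by fun_prop
    exact measurable_Phi.comp hg
  have e2 : ∀ g : β, ∫⁻ u, (L.map fun h => ∫⁻ t, Phi u (x h + t • b h) ∂uu).sum ∂(segM (x g) (b g))
      = (L.map fun h => ∫⁻ s, (∫⁻ t, Phi (x g + s • b g) (x h + t • b h) ∂uu) ∂uu).sum := by
    intro g
    rw [lintegral_fun_list_sum L _ mI]
    congr 2
    ext h
    unfold segM
    rw [lintegral_map (mI h) (measurable_seg _ _)]
  simp_rw [e1]
  have mS : Measurable (fun u : E n => (L.map fun h => ∫⁻ t, Phi u (x h + t • b h) ∂uu).sum) :=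
    measurable_fun_list_sum L _ mI
  rw [lintegral_const_mul _ mS]
  have e3 : ∫⁻ u, (L.map fun h => ∫⁻ t, Phi u (x h + t • b h) ∂uu).sum ∂(avgM L x b)
      = ((L.length : ℝ≥0∞))⁻¹ *
        (L.map fun g => (L.map fun h => ∫⁻ s, (∫⁻ t, Phi (x g + s • b g) (x h + t • b h) ∂uu) ∂uu).sum).sum := by
    unfold avgM
    rw [lintegral_smul_measure, lintegral_list_sum, smul_eq_mul]
    congr 3
    ext g
    exact e2 g
  rw [e3]
  have hN : (0 : ℝ) < L.length := by
    have := List.length_pos_iff.2 hL
    exact_mod_cast this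
  have e4 : (L.map fun g => (L.map fun h => ∫⁻ s, (∫⁻ t, Phi (x g + s • b g) (x h + t • b h) ∂uu) ∂uu).sum).sum
      ≤ ENNReal.ofReal ((L.map fun g => (L.map fun h => p g h).sum).sum) := by
    rw [← ofReal_list_sum]
    · apply list_sum_le
      intro g hg
      rw [← ofReal_list_sum L (fun h => p g h) (hp0 g hg)]
      exact list_sum_le _ _ _ (hp g hg)
    · intro g hg
      apply List.sum_nonneg
      intro y hy
      obtain ⟨h, hh, rfl⟩ := List.mem_map.1 hy
      exact hp0 g hg h hh
  calc _ ≤ ((L.length : ℝ≥0∞))⁻¹ * (((L.length : ℝ≥0∞))⁻¹ *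
        ENNReal.ofReal ((L.map fun g => (L.map fun h => p g h).sum).sum)) := by gcongr
    _ = _ := by
      have e5 : ((L.length : ℝ≥0∞))⁻¹ = ENNReal.ofReal ((L.length : ℝ)⁻¹) := by
        rw [ENNReal.ofReal_inv_of_pos hN, ENNReal.ofReal_natCast]
      rw [e5, ← ENNReal.ofReal_mul (by positivity), ← ENNReal.ofReal_mul (by positivity)]
      congr 1
      field_simp

end

end Pool.Agent.Helper68.LC
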