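import Mathlib
import Pool.Agent.Helper68.Cert

open MeasureTheory Set ENNReal Metric

namespace Pool.Agent.Helper68.LC

noncomputable section

set_option linter.unusedSectionVars false

section check

variable {P : Type} [DecidableEq P] (add : P → P → P) (dsq : P → P → ℕ)

/-- natural number encoding of the factor of a pair -/
def aa (g h : P × P) : ℕ :=
  if dsq (add g.1 g.2) (add h.1 h.2) = 0 then 4 * dsq g.1 g.2
  else dsq (add g.1 g.2) (add h.1 h.2)

/-- natural number encoding of the correction of a pair (in units 10^-6) -/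
def qq (g h : P × P) : ℕ :=
  if dsq (add g.1 g.2) (add h.1 h.2) = 0 then 3000000
  else 1000000 * ((dsq g.1 g.2 + dsq h.1 h.2) * (dsq (add g.1 g.2) (add h.1 h.2)
    + 2 * (dsq g.1 g.2 + dsq h.1 h.2))) / (3 * dsq (add g.1 g.2) (add h.1 h.2) ^ 2) + 1

/-- check for a pair -/
def okp (g h : P × P) : Bool :=
  if dsq (add g.1 g.2) (add h.1 h.2) = 0 then decide (g = h) && decide (0 < dsq g.1 g.2)
  else decide (4 * (dsq g.1 g.2 + dsq h.1 h.2) ≤ dsq (add g.1 g.2) (add h.1 h.2))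

/-- all pairwise squared distances are at most B -/
def chkD (B : ℕ) : List P → Bool
  | [] => true
  | p :: ps => ps.all (fun q => decide (dsq p q ≤ B)) && chkD B ps

end check

section sound

variable {n : ℕ} {P : Type} [DecidableEq P] {add : P → P → P} {dsq : P → P → ℕ} {vec : P → E n} {Q : ℕ}

theorem chkD_sound (h1 : ∀ p q, ‖vec p - vec q‖ ^ 2 = (dsq p q : ℝ) / (Q : ℝ) ^ 2) (hQ : 0 < Q)
    {L : List P} (h : chkD dsq (4 * Q ^ 2) L = true) :
    ∀ p ∈ L, ∀ q ∈ L, dist (vec p) (vec q) ≤ 2 := by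
  have hQ' : (0 : ℝ) < Q := by exact_mod_cast hQ
  have base : ∀ p q, dsq p q ≤ 4 * Q ^ 2 → dist (vec p) (vec q) ≤ 2 := by
    intro p q hpq
    have : ‖vec p - vec q‖ ^ 2 ≤ 2 ^ 2 := by
      rw [h1, div_le_iff₀ (by positivity)]
      have : (dsq p q : ℝ) ≤ 4 * (Q : ℝ) ^ 2 := by exact_mod_cast hpq
      linarith
    rw [dist_eq_norm]
    exact (pow_le_pow_iff_left₀ (norm_nonneg _) (by norm_num) two_ne_zero).1 this
  induction L with
  | nil => simp
  | cons a L ih =>
    simp only [chkD, Bool.and_eq_true, List.all_eq_true, decide_eq_true_eq] at h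
    obtain ⟨ha, hL⟩ := h
    intro p hp q hq
    rcases List.mem_cons.1 hp with hp1 | hp1
    · rcases List.mem_cons.1 hq with hq1 | hq1
      · rw [hp1, hq1, dist_self]; norm_num
      · rw [hp1]; exact base _ _ (ha q hq1)
    · rcases List.mem_cons.1 hq with hq1 | hq1
      · rw [hq1, dist_comm]; exact base _ _ (ha p hp1)
      · exact ih hL p hp1 q hq1

variable (vec) in
/-- centre of a segment -/
def cen (g : P × P) : E n := (2 : ℝ)⁻¹ • (vec g.1 + vec g.2)

variable (vec) in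
/-- half vector of a segment -/
def hal (g : P × P) : E n := (2 : ℝ)⁻¹ • (vec g.1 - vec g.2)

theorem hal_sq (h1 : ∀ p q, ‖vec p - vec q‖ ^ 2 = (dsq p q : ℝ) / (Q : ℝ) ^ 2) (g : P × P) :
    ‖hal vec g‖ ^ 2 = (dsq g.1 g.2 : ℝ) / (4 * (Q : ℝ) ^ 2) := by
  unfold hal
  rw [norm_smul, mul_pow, h1]
  norm_num
  ring

theorem cen_sq (h1 : ∀ p q, ‖vec p - vec q‖ ^ 2 = (dsq p q : ℝ) / (Q : ℝ) ^ 2)
    (h2 : ∀ p q, vec (add p q) = vec p + vec q) (g h : P × P) :
    ‖cen vec g - cen vec h‖ ^ 2 = (dsq (add g.1 g.2) (add h.1 h.2) : ℝ) / (4 * (Q : ℝ) ^ 2) := by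
  unfold cen
  rw [← smul_sub, norm_smul, mul_pow, ← h2, ← h2, h1]
  norm_num
  ring

variable (vec) in
/-- the convex hull of finitely many points -/
def KK (pts : List P) : Set (E n) := convexHull ℝ {v | ∃ p ∈ pts, vec p = v}

theorem pts_finite (pts : List P) : {v | ∃ p ∈ pts, vec p = v}.Finite := by
  have : {v | ∃ p ∈ pts, vec p = v} = vec '' {p | p ∈ pts} := by
    ext v; simp
  rw [this]
  exact (List.finite_toSet pts).image _

theorem KK_compact (pts : List P) : IsCompact (KK vec pts) :=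
  (pts_finite pts).isCompact_convexHull ℝ

theorem seg_mem {pts : List P} {g : P × P} (hg1 : g.1 ∈ pts) (hg2 : g.2 ∈ pts) {s : ℝ}
    (hs : s ∈ Icc (-1 : ℝ) 1) : cen vec g + s • hal vec g ∈ KK vec pts := by
  have m1 : vec g.1 ∈ KK vec pts := subset_convexHull ℝ _ ⟨g.1, hg1, rfl⟩
  have m2 : vec g.2 ∈ KK vec pts := subset_convexHull ℝ _ ⟨g.2, hg2, rfl⟩
  have := (convex_convexHull ℝ {v | ∃ p ∈ pts, vec p = v}) m1 m2
    (show 0 ≤ (1 + s) / 2 by linarith [hs.1]) (show 0 ≤ (1 - s) / 2 by linarith [hs.2]) (by ring)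
  have e : cen vec g + s • hal vec g = ((1 + s) / 2) • vec g.1 + ((1 - s) / 2) • vec g.2 := by
    unfold cen hal
    module
  rw [e]
  exact this

theorem KK_diam (pts : List P) (hd : ∀ p ∈ pts, ∀ q ∈ pts, dist (vec p) (vec q) ≤ 2)
    {p0 q0 : P} (hp0 : p0 ∈ pts) (hq0 : q0 ∈ pts) (h0 : dist (vec p0) (vec q0) = 2) :
    Metric.diam (KK vec pts) = 2 ∧ ∀ x ∈ KK vec pts, ∀ y ∈ KK vec pts, dist x y ≤ 2 := by
  have e : Metric.diam (KK vec pts) = Metric.diam {v | ∃ p ∈ pts, vec p = v} := convexHull_diam _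
  have le : Metric.diam {v | ∃ p ∈ pts, vec p = v} ≤ 2 := by
    apply Metric.diam_le_of_forall_dist_le (by norm_num)
    rintro x ⟨p, hp, rfl⟩ y ⟨q, hq, rfl⟩
    exact hd p hp q hq
  have ge : 2 ≤ Metric.diam {v | ∃ p ∈ pts, vec p = v} := by
    rw [← h0]
    exact Metric.dist_le_diam_of_mem (pts_finite pts).isBounded ⟨p0, hp0, rfl⟩ ⟨q0, hq0, rfl⟩
  have d2 : Metric.diam (KK vec pts) = 2 := by rw [e]; exact le_antisymm le ge
  refine ⟨d2, fun x hx y hy => ?_⟩
  rw [← d2]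
  exact Metric.dist_le_diam_of_mem (KK_compact pts).isBounded hx hy

/-- the bound for a pair -/
theorem pair_sound (h1 : ∀ p q, ‖vec p - vec q‖ ^ 2 = (dsq p q : ℝ) / (Q : ℝ) ^ 2)
    (h2 : ∀ p q, vec (add p q) = vec p + vec q) (hQ : 0 < Q) (g h : P × P)
    (hok : okp add dsq g h = true)
    (hdist : ∀ s ∈ Icc (-1 : ℝ) 1, ∀ t ∈ Icc (-1 : ℝ) 1,
      dist (cen vec g + s • hal vec g) (cen vec h + t • hal vec h) ≤ 2) :
    ∃ p : ℝ, 0 ≤ p ∧ (∫⁻ s, (∫⁻ t, Phi (cen vec g + s • hal vec g) (cen vec h + t • hal vec h) ∂uu) ∂uu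
      ≤ ENNReal.ofReal p) ∧ 0 < aa add dsq g h ∧
      2 * p ≤ Real.log (16 * (Q : ℝ) ^ 2) - Real.log (aa add dsq g h) + (qq add dsq g h : ℝ) / 1000000 := by
  have hQ' : (0 : ℝ) < Q := by exact_mod_cast hQ
  by_cases hD : dsq (add g.1 g.2) (add h.1 h.2) = 0
  · simp only [okp, hD, if_true, Bool.and_eq_true, decide_eq_true_eq] at hok
    obtain ⟨rfl, hb⟩ := hok
    have hb' : (0 : ℝ) < dsq g.1 g.2 := by exact_mod_cast hb
    have hs := hal_sq h1 g
    have hpos : 0 < ‖hal vec g‖ ^ 2 := by rw [hs]; positivity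
    have hne : hal vec g ≠ 0 := by
      intro h0; rw [h0, norm_zero] at hpos; norm_num at hpos
    have hnp : 0 < ‖hal vec g‖ := norm_pos_iff.2 hne
    have hle : ‖hal vec g‖ ≤ 1 := by
      have := hdist 1 (by simp) (-1) (by simp)
      rw [dist_eq_norm, show cen vec g + (1 : ℝ) • hal vec g - (cen vec g + (-1 : ℝ) • hal vec g)
        = (2 : ℝ) • hal vec g by module, norm_smul] at this
      norm_num at this
      linarith
    refine ⟨3 / 2 - Real.log ‖hal vec g‖, ?_, self_bound _ _ hne hle, ?_, ?_⟩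
    · have := Real.log_nonpos hnp.le hle
      linarith
    · simp only [aa, hD, if_true]; omega
    · simp only [aa, qq, hD, if_true]
      have e1 : Real.log (‖hal vec g‖ ^ 2) = 2 * Real.log ‖hal vec g‖ := by
        rw [Real.log_pow]; push_cast; ring
      have e2 : Real.log (‖hal vec g‖ ^ 2) = Real.log ((4 * dsq g.1 g.2 : ℕ) : ℝ) - Real.log (16 * (Q : ℝ) ^ 2) := by
        rw [hs, ← Real.log_div (by push_cast; positivity) (by positivity)]
        congr 1
        push_cast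
        field_simp
        ring
      push_cast at e2 ⊢
      linarith
  · simp only [okp, hD, if_false, decide_eq_true_eq] at hok
    have hD0 : 0 < dsq (add g.1 g.2) (add h.1 h.2) := Nat.pos_of_ne_zero hD
    have hD' : (0 : ℝ) < dsq (add g.1 g.2) (add h.1 h.2) := by exact_mod_cast hD0
    have hs := hal_sq h1 g
    have hs' := hal_sq h1 h
    have hc := cen_sq h1 h2 g h
    set d : ℝ := ((dsq (add g.1 g.2) (add h.1 h.2) : ℕ) : ℝ) with hd
    set β : ℝ := ((dsq g.1 g.2 : ℕ) : ℝ) with hβ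
    set γ : ℝ := ((dsq h.1 h.2 : ℕ) : ℝ) with hγ
    have hβ0 : 0 ≤ β := by rw [hβ]; positivity
    have hγ0 : 0 ≤ γ := by rw [hγ]; positivity
    have hok' : 4 * (β + γ) ≤ d := by rw [hd, hβ, hγ]; exact_mod_cast hok
    have hxy : cen vec g ≠ cen vec h := by
      intro h0
      rw [h0, sub_self, norm_zero] at hc
      have : 0 < d / (4 * (Q : ℝ) ^ 2) := by positivity
      rw [← hc] at this
      norm_num at this
    set T : ℝ := 2 * (β + γ) / d with hT
    have hT0 : 0 ≤ T := by positivity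
    have hT1 : T ≤ 1 / 2 := by
      rw [hT, div_le_iff₀ hD']; linarith
    have hTd : T * d = 2 * (β + γ) := by rw [hT]; field_simp
    have hTb : 2 * (‖hal vec g‖ ^ 2 + ‖hal vec h‖ ^ 2) ≤ T * ‖cen vec g - cen vec h‖ ^ 2 := by
      rw [hs, hs', hc]
      apply le_of_eq
      rw [← mul_div_assoc, hTd]
      ring
    have hb := cross_bound (cen vec g) (cen vec h) (hal vec g) (hal vec h) hxy hTb hT1 hT0 hdist
    refine ⟨_, ?_, hb, ?_, ?_⟩
    · have h0 := hdist 0 (by simp) 0 (by simp)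
      rw [zero_smul, zero_smul, add_zero, add_zero, dist_eq_norm] at h0
      have h3 : ‖cen vec g - cen vec h‖ ^ 2 ≤ 2 ^ 2 := pow_le_pow_left₀ (norm_nonneg _) h0 2
      have h4 : 0 < ‖cen vec g - cen vec h‖ ^ 2 := by rw [hc]; positivity
      have h5 := Real.log_le_log h4 h3
      have h6 : Real.log ((2 : ℝ) ^ 2) = 2 * Real.log 2 := by rw [Real.log_pow]; push_cast; ring
      have h7 : 0 ≤ (1 + T) * (‖hal vec g‖ ^ 2 + ‖hal vec h‖ ^ 2) / (6 * ‖cen vec g - cen vec h‖ ^ 2) := by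
        positivity
      linarith
    · simp only [aa, hD, if_false]; exact hD0
    · simp only [aa, qq, hD, if_false]
      have hQ2 : (0 : ℝ) < 4 * (Q : ℝ) ^ 2 := by positivity
      have e1 : Real.log (‖cen vec g - cen vec h‖ ^ 2) = Real.log d - Real.log (4 * (Q : ℝ) ^ 2) := by
        rw [hc, Real.log_div hD'.ne' hQ2.ne']
      have e2 : Real.log (16 * (Q : ℝ) ^ 2) = 2 * Real.log 2 + Real.log (4 * (Q : ℝ) ^ 2) := by
        have h6 : Real.log ((2 : ℝ) ^ 2) = 2 * Real.log 2 := by rw [Real.log_pow]; push_cast; ring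
        rw [← h6, ← Real.log_mul (by norm_num) hQ2.ne']
        congr 1
        ring
      have e3 : (1 + T) * (‖hal vec g‖ ^ 2 + ‖hal vec h‖ ^ 2) / (6 * ‖cen vec g - cen vec h‖ ^ 2)
          = (β + γ) * (d + 2 * (β + γ)) / (6 * d ^ 2) := by
        rw [hc, hs, hs', hT]
        field_simp
      have e4 : (β + γ) * (d + 2 * (β + γ)) / (3 * d ^ 2)
          ≤ ((1000000 * ((dsq g.1 g.2 + dsq h.1 h.2) * (dsq (add g.1 g.2) (add h.1 h.2)
    + 2 * (dsq g.1 g.2 + dsq h.1 h.2))) / (3 * dsq (add g.1 g.2) (add h.1 h.2) ^ 2) + 1 : ℕ) : ℝ) / 1000000 := by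
        rw [le_div_iff₀ (by norm_num)]
        have h8 := Nat.lt_succ_floor ((1000000 * ((β + γ) * (d + 2 * (β + γ)))) / (3 * d ^ 2))
        have h9 : Nat.floor ((1000000 * ((β + γ) * (d + 2 * (β + γ)))) / (3 * d ^ 2))
          = 1000000 * ((dsq g.1 g.2 + dsq h.1 h.2) * (dsq (add g.1 g.2) (add h.1 h.2)
    + 2 * (dsq g.1 g.2 + dsq h.1 h.2))) / (3 * dsq (add g.1 g.2) (add h.1 h.2) ^ 2) := by
          rw [← Nat.floor_div_eq_div (K := ℝ)]
          congr 1
          push_cast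
          rfl
        rw [h9] at h8
        have h10 : (β + γ) * (d + 2 * (β + γ)) / (3 * d ^ 2) * 1000000
          = (1000000 * ((β + γ) * (d + 2 * (β + γ)))) / (3 * d ^ 2) := by ring
        rw [h10]
        exact h8.le
      rw [e1, e2, e3]
      have e5 : (β + γ) * (d + 2 * (β + γ)) / (6 * d ^ 2) = ((β + γ) * (d + 2 * (β + γ)) / (3 * d ^ 2)) / 2 := by
        field_simp
        ring
      rw [e5]
      linarith

end sound

end

end Pool.Agent.Helper68.LC
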