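import Mathlib
import Pool.Agent.Helper68.Chk

open MeasureTheory Set ENNReal Metric

namespace Pool.Agent.Helper68.LC

noncomputable section

set_option linter.unusedSectionVars false

section fin

variable {n : ℕ} {P : Type} [DecidableEq P] {add : P → P → P} {dsq : P → P → ℕ} {vec : P → E n} {Q : ℕ}

variable (add dsq) in
def bigProd (L : List (P × P)) : ℕ := (L.map fun g => (L.map fun h => aa add dsq g h).prod).prod

variable (add dsq) in
def bigSum (L : List (P × P)) : ℕ := (L.map fun g => (L.map fun h => qq add dsq g h).sum).sum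

variable (dsq) in
/-- all points -/
def allPts (L : List (P × P)) (p0 q0 : P) : List P := p0 :: q0 :: (L.map Prod.fst ++ L.map Prod.snd)

theorem double_le (L : List (P × P)) (p : P × P → P × P → ℝ) (c : ℝ)
    (hp : ∀ g ∈ L, ∀ h ∈ L, 0 < aa add dsq g h ∧
      2 * p g h ≤ c - Real.log (aa add dsq g h) + (qq add dsq g h : ℝ) / 1000000) :
    0 < bigProd add dsq L ∧
    2 * (L.map fun g => (L.map fun h => p g h).sum).sum ≤
      (L.length : ℝ) ^ 2 * c - Real.log (bigProd add dsq L) + (bigSum add dsq L : ℝ) / 1000000 := by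
  have row : ∀ g ∈ L, ∀ L' : List (P × P), (∀ h ∈ L', h ∈ L) →
      0 < (L'.map fun h => aa add dsq g h).prod ∧
      2 * (L'.map fun h => p g h).sum ≤ (L'.length : ℝ) * c
        - Real.log ((L'.map fun h => aa add dsq g h).prod : ℕ)
        + ((L'.map fun h => qq add dsq g h).sum : ℕ) / 1000000 := by
    intro g hg L'
    induction L' with
    | nil => simp
    | cons h L' ih =>
      intro hL'
      have h1 := ih fun k hk => hL' k (List.mem_cons_of_mem _ hk)
      have h2 := hp g hg h (hL' h List.mem_cons_self)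
      simp only [List.map_cons, List.prod_cons, List.sum_cons, List.length_cons]
      refine ⟨Nat.mul_pos h2.1 h1.1, ?_⟩
      rw [Nat.cast_mul, Real.log_mul (by exact_mod_cast h2.1.ne') (by exact_mod_cast h1.1.ne')]
      push_cast at h1 h2 ⊢
      linarith [h1.2, h2.2]
  have tot : ∀ L' : List (P × P), (∀ h ∈ L', h ∈ L) →
      0 < (L'.map fun g => (L.map fun h => aa add dsq g h).prod).prod ∧
      2 * (L'.map fun g => (L.map fun h => p g h).sum).sum ≤ (L'.length : ℝ) * ((L.length : ℝ) * c)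
        - Real.log ((L'.map fun g => (L.map fun h => aa add dsq g h).prod).prod : ℕ)
        + ((L'.map fun g => (L.map fun h => qq add dsq g h).sum).sum : ℕ) / 1000000 := by
    intro L'
    induction L' with
    | nil => simp
    | cons g L' ih =>
      intro hL'
      have h1 := ih fun k hk => hL' k (List.mem_cons_of_mem _ hk)
      have h2 := row g (hL' g List.mem_cons_self) L (fun k hk => hk)
      simp only [List.map_cons, List.prod_cons, List.sum_cons, List.length_cons]
      refine ⟨Nat.mul_pos h2.1 h1.1, ?_⟩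
      rw [Nat.cast_mul, Real.log_mul (by exact_mod_cast h2.1.ne') (by exact_mod_cast h1.1.ne')]
      push_cast at h1 h2 ⊢
      linarith [h1.2, h2.2]
  have := tot L fun k hk => hk
  refine ⟨this.1, ?_⟩
  have h2 := this.2
  unfold bigProd bigSum
  linarith

theorem cert_main (h1 : ∀ p q, ‖vec p - vec q‖ ^ 2 = (dsq p q : ℝ) / (Q : ℝ) ^ 2)
    (h2 : ∀ p q, vec (add p q) = vec p + vec q) (hQ : 0 < Q) (L : List (P × P)) (hL : L ≠ [])
    (p0 q0 : P) (h0 : dsq p0 q0 = 4 * Q ^ 2)
    (hdiam : chkD dsq (4 * Q ^ 2) (allPts L p0 q0) = true)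
    (hok : (L.all fun g => L.all fun h => okp add dsq g h) = true) (γ : ℝ)
    (hnum : (L.length : ℝ) ^ 2 * Real.log (16 * (Q : ℝ) ^ 2) + (bigSum add dsq L : ℝ) / 1000000
      < Real.log (bigProd add dsq L) + (L.length : ℝ) ^ 2 * γ) :
    ∃ K : Set (E n), IsCompact K ∧ Metric.diam K = 2 ∧ (∀ x ∈ K, ∀ y ∈ K, dist x y ≤ 2) ∧
      ∃ ν : Measure (E n), IsProbabilityMeasure ν ∧ ν Kᶜ = 0 ∧
        ∫⁻ q, Phi q.1 q.2 ∂(ν.prod ν) < ENNReal.ofReal (γ / 2) := by
  set pts := allPts L p0 q0 with hpts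
  have m1 : ∀ g ∈ L, g.1 ∈ pts := by
    intro g hg
    simp only [hpts, allPts, List.mem_cons, List.mem_append, List.mem_map]
    exact Or.inr (Or.inr (Or.inl ⟨g, hg, rfl⟩))
  have m2 : ∀ g ∈ L, g.2 ∈ pts := by
    intro g hg
    simp only [hpts, allPts, List.mem_cons, List.mem_append, List.mem_map]
    exact Or.inr (Or.inr (Or.inr ⟨g, hg, rfl⟩))
  have hp0 : p0 ∈ pts := by simp [hpts, allPts]
  have hq0 : q0 ∈ pts := by simp [hpts, allPts]
  have hQ' : (0 : ℝ) < Q := by exact_mod_cast hQ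
  have d0 : dist (vec p0) (vec q0) = 2 := by
    have : ‖vec p0 - vec q0‖ ^ 2 = 2 ^ 2 := by
      rw [h1, h0]; push_cast; field_simp; norm_num
    rw [dist_eq_norm]
    exact (pow_left_inj₀ (norm_nonneg _) (by norm_num) two_ne_zero).1 this
  obtain ⟨hd, hK⟩ := KK_diam (vec := vec) pts (chkD_sound h1 hQ hdiam) hp0 hq0 d0
  have hpair : ∀ g h : P × P, g ∈ L → h ∈ L → ∃ p : ℝ, 0 ≤ p ∧
      (∫⁻ s, (∫⁻ t, Phi (cen vec g + s • hal vec g) (cen vec h + t • hal vec h) ∂uu) ∂uu
      ≤ ENNReal.ofReal p) ∧ 0 < aa add dsq g h ∧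
      2 * p ≤ Real.log (16 * (Q : ℝ) ^ 2) - Real.log (aa add dsq g h) + (qq add dsq g h : ℝ) / 1000000 := by
    intro g h hg hh
    apply pair_sound h1 h2 hQ g h
    · rw [List.all_eq_true] at hok
      have := hok g hg
      rw [List.all_eq_true] at this
      exact this h hh
    · intro s hs t ht
      exact hK _ (seg_mem (m1 g hg) (m2 g hg) hs) _ (seg_mem (m1 h hh) (m2 h hh) ht)
  choose! p hp using hpair
  refine ⟨KK vec pts, KK_compact pts, hd, hK, avgM L (cen vec) (hal vec), avgM_prob L hL _ _, ?_, ?_⟩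
  · unfold avgM
    rw [Measure.smul_apply, measure_list_sum, smul_eq_mul]
    have : ∀ y ∈ (L.map fun g => segM (cen vec g) (hal vec g) (KK vec pts)ᶜ), y = 0 := by
      intro y hy
      obtain ⟨g, hg, rfl⟩ := List.mem_map.1 hy
      unfold segM
      rw [Measure.map_apply (measurable_seg _ _) (KK_compact pts).measurableSet.compl]
      rw [← nonpos_iff_eq_zero]
      calc uu _ ≤ uu (Icc (-1) 1)ᶜ := by
            apply measure_mono
            intro s hs hs'
            exact hs (seg_mem (m1 g hg) (m2 g hg) hs')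
        _ = 0 := ae_uu
    rw [List.sum_eq_zero this, mul_zero]
  · refine (avgM_energy L hL _ _ p (fun g hg h hh => (hp g h hg hh).1)
      (fun g hg h hh => (hp g h hg hh).2.1)).trans_lt ?_
    have hd := double_le (add := add) (dsq := dsq) L p (Real.log (16 * (Q : ℝ) ^ 2))
      (fun g hg h hh => (hp g h hg hh).2.2)
    have hN : (0 : ℝ) < L.length := by
      have := List.length_pos_iff.2 hL
      exact_mod_cast this
    have hlt : (L.map fun g => (L.map fun h => p g h).sum).sum / (L.length : ℝ) ^ 2 < γ / 2 := by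
      rw [div_lt_iff₀ (by positivity)]
      linarith [hd.2]
    have hnonneg : 0 ≤ (L.map fun g => (L.map fun h => p g h).sum).sum / (L.length : ℝ) ^ 2 := by
      apply div_nonneg _ (by positivity)
      apply List.sum_nonneg
      intro y hy
      obtain ⟨g, hg, rfl⟩ := List.mem_map.1 hy
      apply List.sum_nonneg
      intro y hy
      obtain ⟨h, hh, rfl⟩ := List.mem_map.1 hy
      exact (hp g h hg hh).1
    exact (ENNReal.ofReal_lt_ofReal_iff (hnonneg.trans_lt hlt)).2 hlt

end fin

/-! numeric criteria -/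

/-- the natural number inequality for dimension three -/
def numOk3 (N Q A S : ℕ) : Bool :=
  decide (0 < Q) && decide (S / 1000000 + 1 ≤ N ^ 2) &&
  decide ((16 * Q ^ 2) ^ (N ^ 2) * 1000 ^ (N ^ 2 - (S / 1000000 + 1))
      < A * 2718 ^ (N ^ 2 - (S / 1000000 + 1)))

theorem num3 {N Q A S : ℕ} (hc : numOk3 N Q A S = true) :
    (N : ℝ) ^ 2 * Real.log (16 * (Q : ℝ) ^ 2) + (S : ℝ) / 1000000 < Real.log A + (N : ℝ) ^ 2 * 1 := by
  simp only [numOk3, Bool.and_eq_true, decide_eq_true_eq] at hc
  obtain ⟨⟨hQ, hS⟩, h⟩ := hc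
  have hA : 0 < A := by
    apply Nat.pos_of_ne_zero
    intro h0
    rw [h0, zero_mul] at h
    exact Nat.not_lt_zero _ h
  set k := N ^ 2 - (S / 1000000 + 1) with hk
  have hkN : (k : ℝ) + ((S / 1000000 : ℕ) + 1 : ℝ) = (N : ℝ) ^ 2 := by
    have : k + (S / 1000000 + 1) = N ^ 2 := by omega
    exact_mod_cast this
  have hS' : (S : ℝ) / 1000000 ≤ ((S / 1000000 : ℕ) : ℝ) + 1 := by
    have h8 := Nat.lt_succ_floor ((S : ℝ) / 1000000)
    have h9 : Nat.floor ((S : ℝ) / 1000000) = S / 1000000 := by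
      have := Nat.floor_div_eq_div (K := ℝ) S 1000000
      push_cast at this
      exact this
    rw [h9, Nat.cast_succ] at h8
    exact h8.le
  have hQ' : (0 : ℝ) < Q := by exact_mod_cast hQ
  have hA' : (0 : ℝ) < A := by exact_mod_cast hA
  have hr : ((16 * (Q : ℝ) ^ 2) ^ (N ^ 2) * 1000 ^ k) < A * 2718 ^ k := by exact_mod_cast h
  have hl := Real.log_lt_log (by positivity) hr
  rw [Real.log_mul (by positivity) (by positivity), Real.log_mul (by positivity) (by positivity),
    Real.log_pow, Real.log_pow, Real.log_pow] at hl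
  have he : Real.log 2718 - Real.log 1000 ≤ 1 := by
    rw [← Real.log_div (by norm_num) (by norm_num), Real.log_le_iff_le_exp (by norm_num)]
    have := Real.exp_one_gt_d9
    norm_num
    linarith
  have hk0 : (0 : ℝ) ≤ k := by positivity
  have := mul_le_mul_of_nonneg_left he hk0
  push_cast at hl
  nlinarith

/-- the natural number inequality for dimension four -/
def numOk4 (N Q A S m : ℕ) : Bool :=
  decide (0 < Q) && decide (N ^ 2 ≤ 2 * m) &&
  decide ((4 * Q ^ 2) ^ (N ^ 2) * 2719 ^ (m + (S / 1000000 + 1))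
      < A * 1000 ^ (m + (S / 1000000 + 1)))

theorem num4 {N Q A S m : ℕ} (hc : numOk4 N Q A S m = true) :
    (N : ℝ) ^ 2 * Real.log (16 * (Q : ℝ) ^ 2) + (S : ℝ) / 1000000
      < Real.log A + (N : ℝ) ^ 2 * (2 * Real.log 2 - 1 / 2) := by
  simp only [numOk4, Bool.and_eq_true, decide_eq_true_eq] at hc
  obtain ⟨⟨hQ, hm⟩, h⟩ := hc
  have hA : 0 < A := by
    apply Nat.pos_of_ne_zero
    intro h0
    rw [h0, zero_mul] at h
    exact Nat.not_lt_zero _ h
  set k := m + (S / 1000000 + 1) with hk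
  have hkN : (k : ℝ) = (m : ℝ) + ((S / 1000000 : ℕ) + 1 : ℝ) := by
    rw [hk]; push_cast; ring
  have hm' : (N : ℝ) ^ 2 ≤ 2 * m := by exact_mod_cast hm
  have hS' : (S : ℝ) / 1000000 ≤ ((S / 1000000 : ℕ) : ℝ) + 1 := by
    have h8 := Nat.lt_succ_floor ((S : ℝ) / 1000000)
    have h9 : Nat.floor ((S : ℝ) / 1000000) = S / 1000000 := by
      have := Nat.floor_div_eq_div (K := ℝ) S 1000000
      push_cast at this
      exact this
    rw [h9, Nat.cast_succ] at h8
    exact h8.le
  have hQ' : (0 : ℝ) < Q := by exact_mod_cast hQ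
  have hA' : (0 : ℝ) < A := by exact_mod_cast hA
  have hr : ((4 * (Q : ℝ) ^ 2) ^ (N ^ 2) * 2719 ^ k) < A * 1000 ^ k := by exact_mod_cast h
  have hl := Real.log_lt_log (by positivity) hr
  rw [Real.log_mul (by positivity) (by positivity), Real.log_mul (by positivity) (by positivity),
    Real.log_pow, Real.log_pow, Real.log_pow] at hl
  have he : 1 ≤ Real.log 2719 - Real.log 1000 := by
    rw [← Real.log_div (by norm_num) (by norm_num), Real.le_log_iff_exp_le (by norm_num)]
    have := Real.exp_one_lt_d9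
    norm_num
    linarith
  have e2 : Real.log (16 * (Q : ℝ) ^ 2) = 2 * Real.log 2 + Real.log (4 * (Q : ℝ) ^ 2) := by
    have h6 : Real.log ((2 : ℝ) ^ 2) = 2 * Real.log 2 := by rw [Real.log_pow]; push_cast; ring
    rw [← h6, ← Real.log_mul (by norm_num) (by positivity)]
    congr 1
    ring
  have hk0 : (0 : ℝ) ≤ k := by positivity
  have := mul_le_mul_of_nonneg_left he hk0
  push_cast at hl
  rw [e2]
  nlinarith

end

end Pool.Agent.Helper68.LC
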