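import Mathlib
import Pool.Agent.Helper68.Fin

open MeasureTheory Set ENNReal Metric

namespace Pool.Agent.Helper68.LC

/-- squared difference of natural numbers -/
def sd (a b : ℕ) : ℕ := ((a - b) + (b - a)) ^ 2

theorem sd_cast (a b : ℕ) : (sd a b : ℝ) = ((a : ℝ) - b) ^ 2 := by
  unfold sd
  rcases le_total a b with h | h
  · rw [Nat.sub_eq_zero_of_le h, zero_add]
    push_cast [Nat.cast_sub h]
    ring
  · rw [Nat.sub_eq_zero_of_le h, add_zero]
    push_cast [Nat.cast_sub h]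
    ring

def add3 (p q : ℕ × ℕ × ℕ) : ℕ × ℕ × ℕ := (p.1 + q.1, p.2.1 + q.2.1, p.2.2 + q.2.2)

def dsq3 (p q : ℕ × ℕ × ℕ) : ℕ := sd p.1 q.1 + sd p.2.1 q.2.1 + sd p.2.2 q.2.2

noncomputable def vec3 (Q : ℕ) (p : ℕ × ℕ × ℕ) : E 3 :=
  !₂[(p.1 : ℝ) / Q, (p.2.1 : ℝ) / Q, (p.2.2 : ℝ) / Q]

theorem vec3_sub (Q : ℕ) (p q : ℕ × ℕ × ℕ) :
    ‖vec3 Q p - vec3 Q q‖ ^ 2 = (dsq3 p q : ℝ) / (Q : ℝ) ^ 2 := by
  rw [EuclideanSpace.norm_sq_eq, Fin.sum_univ_three]
  simp only [dsq3, Nat.cast_add, sd_cast, vec3]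
  simp [Real.norm_eq_abs, sq_abs]
  ring

theorem vec3_add (Q : ℕ) (p q : ℕ × ℕ × ℕ) : vec3 Q (add3 p q) = vec3 Q p + vec3 Q q := by
  unfold vec3 add3
  ext i
  fin_cases i <;> simp <;> ring

def add4 (p q : ℕ × ℕ × ℕ × ℕ) : ℕ × ℕ × ℕ × ℕ :=
  (p.1 + q.1, p.2.1 + q.2.1, p.2.2.1 + q.2.2.1, p.2.2.2 + q.2.2.2)

def dsq4 (p q : ℕ × ℕ × ℕ × ℕ) : ℕ :=
  sd p.1 q.1 + sd p.2.1 q.2.1 + sd p.2.2.1 q.2.2.1 + sd p.2.2.2 q.2.2.2

noncomputable def vec4 (Q : ℕ) (p : ℕ × ℕ × ℕ × ℕ) : E 4 :=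
  !₂[(p.1 : ℝ) / Q, (p.2.1 : ℝ) / Q, (p.2.2.1 : ℝ) / Q, (p.2.2.2 : ℝ) / Q]

theorem vec4_sub (Q : ℕ) (p q : ℕ × ℕ × ℕ × ℕ) :
    ‖vec4 Q p - vec4 Q q‖ ^ 2 = (dsq4 p q : ℝ) / (Q : ℝ) ^ 2 := by
  rw [EuclideanSpace.norm_sq_eq, Fin.sum_univ_four]
  simp only [dsq4, Nat.cast_add, sd_cast, vec4]
  simp [Real.norm_eq_abs, sq_abs]
  ring

theorem vec4_add (Q : ℕ) (p q : ℕ × ℕ × ℕ × ℕ) : vec4 Q (add4 p q) = vec4 Q p + vec4 Q q := by
  unfold vec4 add4
  ext i
  fin_cases i <;> simp <;> ring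

/-- the 24 segments in dimension four (endpoints, scale 1000) -/
def L4 : List ((ℕ × ℕ × ℕ × ℕ) × (ℕ × ℕ × ℕ × ℕ)) :=
  [((2179, 1497, 1397, 3139), (2461, 1514, 1633, 2942)),
   ((1820, 1538, 1112, 3254), (1822, 1412, 962, 3088)),
   ((2043, 1572, 473, 1374), (2000, 1288, 559, 1359)),
   ((1156, 1757, 1706, 2653), (1035, 1882, 1884, 2314)),
   ((1974, 2346, 850, 3004), (1899, 1982, 942, 3175)),
   ((2123, 2919, 798, 2460), (2049, 2657, 802, 2766)),
   ((1139, 2461, 1843, 1804), (1328, 2745, 1611, 1850)),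
   ((1402, 2011, 2270, 1767), (1798, 1948, 2371, 1783)),
   ((1327, 1660, 1520, 2914), (1567, 1580, 1301, 3129)),
   ((2875, 1656, 1997, 2359), (2696, 1568, 1835, 2679)),
   ((1852, 3081, 1110, 2001), (1566, 2952, 1366, 1917)),
   ((2575, 1309, 1162, 1436), (2315, 1264, 854, 1359)),
   ((1872, 1182, 629, 2387), (1839, 1269, 775, 2774)),
   ((2431, 3023, 1055, 2079), (2669, 2847, 1314, 2053)),
   ((1215, 1651, 1445, 1398), (1075, 1844, 1749, 1549)),
   ((2152, 2495, 486, 1671), (2111, 2093, 423, 1504)),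
   ((2202, 1887, 2382, 1827), (2599, 1830, 2302, 1897)),
   ((2184, 2927, 685, 1939), (2197, 3108, 849, 2106)),
   ((1001, 2000, 2000, 2000), (1021, 2080, 2052, 1779)),
   ((2918, 1554, 1787, 1740), (2775, 1405, 1472, 1562)),
   ((1910, 1163, 554, 2030), (1959, 1204, 534, 1645)),
   ((1674, 1364, 848, 1291), (1415, 1490, 1144, 1312)),
   ((2961, 2314, 1804, 2011), (2836, 2627, 1549, 2031)),
   ((2983, 1773, 2106, 1990), (2999, 2000, 2000, 2000))]

theorem chk4a : chkD dsq4 (4 * 1000 ^ 2) (allPts L4 (3000, 2000, 2000, 2000) (1000, 2000, 2000, 2000)) = true := by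
  decide +kernel

theorem chk4b : (L4.all fun g => L4.all fun h => okp add4 dsq4 g h) = true := by
  decide +kernel

theorem chk4c : numOk4 24 1000 (bigProd add4 dsq4 L4) (bigSum add4 dsq4 L4) 288 = true := by
  decide +kernel

/-- base segments in dimension three (scale 10000) -/
def base3 : List (ℕ × ℕ × ℕ × ℕ) :=
  [(9984, 555, 9999, 98),
   (9926, 1207, 9971, 751),
   (9826, 1854, 9901, 1401),
   (9684, 2493, 9788, 2046),
   (9500, 3122, 9633, 2683),
   (9274, 3739, 9436, 3309),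
   (9008, 4342, 9198, 3922),
   (8701, 4927, 8920, 4519),
   (8355, 5493, 8602, 5099),
   (7972, 6037, 8244, 5659),
   (7538, 6570, 7847, 6198),
   (7167, 6973, 7412, 6712)]

/-- the twelve images of a point -/
def img (u v : ℕ) : List (ℕ × ℕ × ℕ) :=
  [(20000 + u, 20000 + v, 20000 + v), (20000 + u, 20000 - v, 20000 - v),
   (20000 - u, 20000 + v, 20000 - v), (20000 - u, 20000 - v, 20000 + v),
   (20000 + v, 20000 + u, 20000 + v), (20000 + v, 20000 - u, 20000 - v),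
   (20000 - v, 20000 + u, 20000 - v), (20000 - v, 20000 - u, 20000 + v),
   (20000 + v, 20000 + v, 20000 + u), (20000 + v, 20000 - v, 20000 - u),
   (20000 - v, 20000 + v, 20000 - u), (20000 - v, 20000 - v, 20000 + u)]

/-- the 144 segments in dimension three -/
def L3 : List ((ℕ × ℕ × ℕ) × (ℕ × ℕ × ℕ)) :=
  base3.flatMap fun t => List.zip (img t.1 t.2.1) (img t.2.2.1 t.2.2.2)

theorem chk3a : chkD dsq3 (4 * 10000 ^ 2) (allPts L3 (30000, 20000, 20000) (10000, 20000, 20000)) = true := by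
  decide +kernel

theorem chk3b : (L3.all fun g => L3.all fun h => okp add3 dsq3 g h) = true := by
  decide +kernel

theorem chk3c : numOk3 144 10000 (bigProd add3 dsq3 L3) (bigSum add3 dsq3 L3) = true := by
  decide +kernel

theorem len3 : L3.length = 144 := by decide +kernel

theorem len4 : L4.length = 24 := by decide +kernel

theorem exists_three : ∃ K : Set (E 3), IsCompact K ∧ Metric.diam K = 2 ∧
    logCap (closedBall (0 : E 3) 1) < logCap K := by
  have hn := num3 chk3c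
  obtain ⟨K, hK, hd, hK2, ν, hν, hν0, hlt⟩ := cert_main (vec := vec3 10000) (add := add3) (dsq := dsq3)
    (Q := 10000) (vec3_sub 10000) (vec3_add 10000) (by norm_num) L3
    (by intro h; have := len3; rw [h] at this; simp at this)
    (30000, 20000, 20000) (10000, 20000, 20000) (by decide +kernel) chk3a chk3b 1
    (by rw [len3]; exact hn)
  exact ⟨K, hK, hd, cap_lt_three hK2 ν hν0 hlt⟩

theorem exists_four : ∃ K : Set (E 4), IsCompact K ∧ Metric.diam K = 2 ∧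
    logCap (closedBall (0 : E 4) 1) < logCap K := by
  have hn := num4 chk4c
  obtain ⟨K, hK, hd, hK2, ν, hν, hν0, hlt⟩ := cert_main (vec := vec4 1000) (add := add4) (dsq := dsq4)
    (Q := 1000) (vec4_sub 1000) (vec4_add 1000) (by norm_num) L4
    (by intro h; have := len4; rw [h] at this; simp at this)
    (3000, 2000, 2000, 2000) (1000, 2000, 2000, 2000) (by decide +kernel) chk4a chk4b
    (2 * Real.log 2 - 1 / 2)
    (by rw [len4]; exact hn)
  refine ⟨K, hK, hd, cap_lt_four hK2 ν hν0 ?_⟩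
  convert hlt using 2
  ring

end Pool.Agent.Helper68.LC
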